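import Pool.Agent.H41H.Rep
import Pool.Agent.Y910.F.F4
import Pool.Agent.Y396.FC.SG
import Pool.Agent.Y525.FC.INT
import Pool.Agent.Y907.FC.FLIP
import Pool.Agent.Y396.FC.IRR
import Pool.Agent.Y348.FC.PLACE
import Pool.Agent.Y876.FC.GEN

/-!
# Project HG: the piece ALL (helper41), few exceptional integers
-/

set_option autoImplicit false

namespace Pool.Agent.H41H

open Polynomial

/-- few large points in every small class -/
theorem frame (n : ℕ) (hn : 3 ≤ n) : ∃ M N : ℕ, ∀ (H : ℕ) (g : ℤ[X]) (D : ℚ[X])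
    (s : Finset ℤ), 1 ≤ H → g.natDegree = n → (g.map (Int.castRingHom ℚ)).Separable →
    (∀ i, |g.coeff i| ≤ H) →
    (∀ θ : ℂ, aeval θ g = 0 → IsIntegral ℤ (aeval θ D) ∧ aeval θ D ≠ 0 ∧ ‖aeval θ D‖ ≤ H) →
    (∀ x ∈ s, (2 * H : ℤ) ^ M < |x| ∧
      ∃ B : ℚ[X], g.map (Int.castRingHom ℚ) ∣ B ^ 2 - D * (C (x : ℚ) - X)) →
    s.card ≤ N :=
  Pool.Agent.Y910.F.frame Pool.Agent.Y396.FC.SG.done (Pool.Agent.Y525.FC.done
    Pool.Agent.Y396.FC.SG.done) Pool.Agent.Y907.FC.FLIP.done Pool.Agent.Y396.FC.IRR.done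
    Pool.Agent.Y348.FC.done Pool.Agent.Y876.FC.done n hn

lemma aeval_Q (f : ℤ[X]) (θ : ℂ) : aeval θ (Q f) = aeval θ f := by
  rw [Q, aeval_def, eval₂_map, aeval_def]
  congr 1

/-- the points of one curve -/
theorem curve (hREP : S_REP) (hCLS : S_CLS) (d : ℕ) : ∃ c : ℕ, ∀ (H : ℕ) (f : ℤ[X])
    (s : Finset ℤ), 1 ≤ H → 3 ≤ f.natDegree → f.natDegree ≤ d → (Q f).Separable →
    (∀ i, |f.coeff i| ≤ H) → (∀ x ∈ s, (((c * H) ^ c : ℕ) : ℤ) < |x| ∧ ∃ y : ℤ, f.eval x = y ^ 2) →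
    s.card ≤ (c * H) ^ c := by
  classical
  obtain ⟨c1, hc1⟩ := hREP d
  obtain ⟨c2, hc2⟩ := hCLS d
  choose M N hMN using frame
  -- constants for all degrees
  obtain ⟨M0, hM0⟩ : ∃ M0 : ℕ, ∀ n (hn : 3 ≤ n), n ≤ d → M n hn ≤ M0 := by
    refine ⟨∑ n ∈ Finset.range (d + 1), if hn : 3 ≤ n then M n hn else 0, fun n hn hnd => ?_⟩
    have h1 := Finset.single_le_sum (f := fun n => if hn : 3 ≤ n then M n hn else 0)
      (fun _ _ => Nat.zero_le _) (Finset.mem_range.2 (Nat.lt_succ_of_le hnd))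
    simp only [hn, dite_true] at h1
    exact h1
  obtain ⟨N0, hN0⟩ : ∃ N0 : ℕ, ∀ n (hn : 3 ≤ n), n ≤ d → N n hn ≤ N0 := by
    refine ⟨∑ n ∈ Finset.range (d + 1), if hn : 3 ≤ n then N n hn else 0, fun n hn hnd => ?_⟩
    have h1 := Finset.single_le_sum (f := fun n => if hn : 3 ≤ n then N n hn else 0)
      (fun _ _ => Nat.zero_le _) (Finset.mem_range.2 (Nat.lt_succ_of_le hnd))
    simp only [hn, dite_true] at h1
    exact h1
  -- `e = c1 + 1`, `K = (e H) ^ e`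
  obtain ⟨e, he⟩ : ∃ e : ℕ, e = c1 + 1 := ⟨_, rfl⟩
  obtain ⟨B, hB⟩ : ∃ B : ℕ, B = 2 * e + (N0 + 1) * (c2 * e + 1) := ⟨_, rfl⟩
  obtain ⟨c, hc⟩ : ∃ c : ℕ, c = B + (e + 1) * (M0 + 1) + (1 + (e + 1) * c2) := ⟨_, rfl⟩
  have hcB : B ≤ c := by omega
  have hc_1 : 1 ≤ c := by
    have : 1 ≤ (e + 1) * (M0 + 1) := Nat.mul_pos (by omega) (by omega)
    omega
  have he2 : e ≤ c := by omega
  refine ⟨c, fun H f s hH h3 hd hsep hco hs => ?_⟩
  obtain ⟨K, hK⟩ : ∃ K : ℕ, K = (e * H) ^ e := ⟨_, rfl⟩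
  have heH : 1 ≤ e * H := Nat.mul_pos (by omega) hH
  have hHeH : H ≤ e * H := Nat.le_mul_of_pos_left _ (by omega)
  have hK1 : 1 ≤ K := by rw [hK]; exact Nat.pow_pos heH
  have hHK : H ≤ K := by
    rw [hK]
    exact hHeH.trans (Nat.le_self_pow (by omega) _)
  have hc1K : (c1 * H) ^ c1 ≤ K := by
    rw [hK]
    exact (Nat.pow_le_pow_left (Nat.mul_le_mul_right _ (by omega)) _).trans
      (Nat.pow_le_pow_right heH (by omega))
  have hcK : (c1 * H) ^ c1 ≤ (c * H) ^ c := by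
    refine hc1K.trans ?_
    rw [hK]
    exact pow_bound hH hc_1 he2 he2
  -- the classes
  have hrep : ∀ x ∈ s, Rep (Q f) x K := by
    intro x hx
    obtain ⟨h4, y, hy⟩ := hs x hx
    refine (hc1 H f x y hH hd hsep hco hy (lt_of_le_of_lt ?_ h4)).mono hc1K
    exact_mod_cast hcK
  choose! D Bx hD1 hD2 using hrep
  have hf0 : Q f ≠ 0 := hsep.ne_zero
  let φ : ℤ → ℚ[X] := fun x => D x % Q f
  have hφ : ∀ x x' : ℤ, φ x = φ x' ↔ Q f ∣ D x - D x' := by
    intro x x'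
    have h5 : D x - D x' = Q f * (D x / Q f - D x' / Q f) + (φ x - φ x') := by
      have e1 := EuclideanDomain.div_add_mod (D x) (Q f)
      have e2 := EuclideanDomain.div_add_mod (D x') (Q f)
      linear_combination -e1 + e2
    constructor
    · intro h6
      rw [h5, h6, sub_self, add_zero]
      exact dvd_mul_right _ _
    · intro h6
      have h7 : Q f ∣ φ x - φ x' := by
        rw [h5] at h6
        exact (dvd_add_right (dvd_mul_right _ _)).1 h6
      have h8 : (φ x - φ x').degree < (Q f).degree :=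
        lt_of_le_of_lt (degree_sub_le _ _) (max_lt (EuclideanDomain.mod_lt _ hf0)
          (EuclideanDomain.mod_lt _ hf0))
      exact sub_eq_zero.1 (eq_zero_of_dvd_of_degree_lt h7 h8)
  -- few points in every class
  have hfib : ∀ a ∈ s.image φ, (s.filter fun x => φ x = a).card ≤ N0 := by
    intro a ha
    obtain ⟨x0, hx0, hx0a⟩ := Finset.mem_image.1 ha
    refine (hMN f.natDegree h3 K f (D x0) _ hK1 rfl hsep
      (fun i => (hco i).trans (by exact_mod_cast hHK)) (fun θ hθ => ?_) ?_).trans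
      (hN0 _ h3 hd)
    · rw [← aeval_Q] at hθ
      exact hD2 x0 hx0 θ hθ
    · intro x hx
      obtain ⟨hxs, hxa⟩ := Finset.mem_filter.1 hx
      constructor
      · refine lt_of_le_of_lt ?_ (hs x hxs).1
        have h6 : (2 * K) ^ M f.natDegree h3 ≤ (c * H) ^ c := by
          have h7 : 2 * K ≤ (B * H) ^ (e + 1) := by
            rw [hK, pow_succ, mul_comm]
            refine Nat.mul_le_mul (Nat.pow_le_pow_left (Nat.mul_le_mul_right _ (by omega)) _) ?_
            have h8 : 2 ≤ B := by omega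
            exact h8.trans (Nat.le_mul_of_pos_right _ hH)
          have hB1 : 1 ≤ B * H := Nat.mul_pos (by omega) hH
          calc (2 * K) ^ M f.natDegree h3 ≤ ((B * H) ^ (e + 1)) ^ M f.natDegree h3 :=
                Nat.pow_le_pow_left h7 _
            _ = (B * H) ^ ((e + 1) * M f.natDegree h3) := (pow_mul _ _ _).symm
            _ ≤ (B * H) ^ ((e + 1) * (M0 + 1)) :=
                Nat.pow_le_pow_right hB1 (Nat.mul_le_mul_left _ ((hM0 _ h3 hd).trans (by omega)))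
            _ ≤ (c * H) ^ c := pow_bound hH hc_1 hcB (by omega)
        exact_mod_cast h6
      · refine ⟨Bx x, ?_⟩
        have h6 : Q f ∣ D x - D x0 := (hφ x x0).1 (hxa.trans hx0a.symm)
        have h7 := dvd_add (hD1 x hxs) (Dvd.dvd.mul_right h6 (C (x : ℚ) - X))
        have h8 : Bx x ^ 2 - D x * (C (x : ℚ) - X) + (D x - D x0) * (C (x : ℚ) - X) =
            Bx x ^ 2 - D x0 * (C (x : ℚ) - X) := by ring
        rwa [h8] at h7
  have h5 := Finset.card_le_mul_card_image s N0 hfib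
  -- few classes
  obtain ⟨u, hus, huφ⟩ : ∃ u : Finset ℤ, u ⊆ s ∧ Set.InjOn φ u ∧ u.image φ = s.image φ := by
    obtain ⟨u, hu1, hu2, hu3⟩ := Finset.exists_subset_injOn_image_eq_of_surjOn (s : Set ℤ)
      (s.image φ) (by rw [Finset.coe_image]; exact Set.surjOn_image φ _)
    exact ⟨u, by exact_mod_cast hu1, hu2, hu3⟩
  have h6 : (s.image φ).card = u.card := by
    rw [← huφ.2]
    exact Finset.card_image_of_injOn huφ.1
  have h7 := hc2 H K f u D hH hK1 hd hsep hco (fun x hx θ hθ => by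
      obtain ⟨h8, h9, h10⟩ := hD2 x (hus hx) θ hθ
      exact ⟨h8, h10⟩) (fun x hx x' hx' hxx => huφ.1 hx hx' ((hφ x x').2 hxx))
  rw [h6] at h5
  refine h5.trans ?_
  have h8 : c2 * H * K ≤ (B * H) ^ (e + 1) := by
    rw [hK, pow_succ, mul_comm]
    refine Nat.mul_le_mul (Nat.pow_le_pow_left (Nat.mul_le_mul_right _ (by omega)) _)
      (Nat.mul_le_mul_right _ ?_)
    rw [hB]
    have : c2 * 1 ≤ c2 * e := Nat.mul_le_mul_left _ (by omega)
    have : 1 * (c2 * e + 1) ≤ (N0 + 1) * (c2 * e + 1) := Nat.mul_le_mul_right _ (by omega)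
    omega
  have hB1 : 1 ≤ B * H := Nat.mul_pos (by
    have : 1 * (c2 * e + 1) ≤ (N0 + 1) * (c2 * e + 1) := Nat.mul_le_mul_right _ (by omega)
    omega) hH
  have hN : N0 ≤ B * H := by
    have h9 : N0 ≤ B := by
      have : (N0 + 1) * 1 ≤ (N0 + 1) * (c2 * e + 1) := Nat.mul_le_mul_left _ (by omega)
      omega
    exact h9.trans (Nat.le_mul_of_pos_right _ hH)
  calc N0 * u.card ≤ (B * H) * (c2 * H * K) ^ c2 := Nat.mul_le_mul hN h7
    _ ≤ (B * H) * ((B * H) ^ (e + 1)) ^ c2 :=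
        Nat.mul_le_mul_left _ (Nat.pow_le_pow_left h8 _)
    _ = (B * H) ^ (1 + (e + 1) * c2) := by rw [pow_add (B * H) 1, pow_one, pow_mul (B * H) (e + 1)]
    _ ≤ (c * H) ^ c := pow_bound hH hc_1 hcB (by omega)

/-- the number of the polynomials -/
lemma card_polys (d H : ℕ) (P : Finset ℤ[X])
    (hP : ∀ f ∈ P, f.natDegree ≤ d ∧ ∀ i, |f.coeff i| ≤ (H : ℤ)) :
    P.card ≤ (2 * H + 1) ^ (d + 1) := by
  classical
  have h1 : P.card ≤ (Fintype.piFinset fun _ : Fin (d + 1) => Finset.Icc (-(H : ℤ)) H).card := by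
    refine Finset.card_le_card_of_injOn (fun f => fun i : Fin (d + 1) => f.coeff i) ?_ ?_
    · intro f hf
      rw [Finset.mem_coe, Fintype.mem_piFinset]
      intro i
      rw [Finset.mem_Icc]
      exact abs_le.1 ((hP f hf).2 i)
    · intro f hf g hg hfg
      ext i
      by_cases hi : i < d + 1
      · exact congrFun hfg ⟨i, hi⟩
      · rw [coeff_eq_zero_of_natDegree_lt (by have := (hP f hf).1; omega),
          coeff_eq_zero_of_natDegree_lt (by have := (hP g hg).1; omega)]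
  refine h1.trans (le_of_eq ?_)
  rw [Fintype.card_piFinset]
  simp only [Int.card_Icc, Finset.prod_const, Finset.card_univ, Fintype.card_fin]
  congr 1
  omega

theorem t_ALL (hREP : S_REP) (hCLS : S_CLS) : S_ALL := by
  classical
  intro d
  obtain ⟨c1, hc1⟩ := curve hREP hCLS d
  obtain ⟨c, hc⟩ : ∃ c : ℕ, c = c1 + d + 4 := ⟨_, rfl⟩
  refine ⟨c, fun H s hH hs => ?_⟩
  have hc1c : (c1 * H) ^ c1 ≤ (c * H) ^ c := pow_bound hH (by omega) (by omega) (by omega)
  choose! hx F hF3 hFd hFs hFc hFy using hs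
  have h1 := Finset.card_le_mul_card_image (f := F) s ((c1 * H) ^ c1) (by
    intro a ha
    obtain ⟨x0, hx0, rfl⟩ := Finset.mem_image.1 ha
    refine hc1 H (F x0) _ hH (hF3 x0 hx0) (hFd x0 hx0) (hFs x0 hx0) (hFc x0 hx0) ?_
    intro x hxm
    obtain ⟨hxs, hxF⟩ := Finset.mem_filter.1 hxm
    refine ⟨lt_of_le_of_lt (by exact_mod_cast hc1c) (hx x hxs), ?_⟩
    rw [← hxF]
    exact hFy x hxs)
  have h2 := card_polys d H (s.image F) (by
    intro f hf
    obtain ⟨x0, hx0, rfl⟩ := Finset.mem_image.1 hf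
    exact ⟨hFd x0 hx0, hFc x0 hx0⟩)
  refine h1.trans ((Nat.mul_le_mul_left _ h2).trans ?_)
  have h3 : 2 * H + 1 ≤ c * H := by
    have : 3 * H ≤ c * H := Nat.mul_le_mul_right _ (by omega)
    omega
  calc (c1 * H) ^ c1 * (2 * H + 1) ^ (d + 1) ≤ (c * H) ^ c1 * (c * H) ^ (d + 1) :=
        Nat.mul_le_mul (Nat.pow_le_pow_left (Nat.mul_le_mul_right _ (by omega)) _)
          (Nat.pow_le_pow_left h3 _)
    _ = (c * H) ^ (c1 + (d + 1)) := (pow_add _ _ _).symm
    _ ≤ (c * H) ^ c := Nat.pow_le_pow_right (Nat.mul_pos (by omega) hH) (by omega)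

end Pool.Agent.H41H
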