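import Pool.Agent.H41H.Stm
import Pool.Agent.Y910.R.R2

/-!
# HG: the piece CLS (there are few small classes)
-/

set_option autoImplicit false

namespace Pool.Agent.H41H

open Polynomial

lemma aeval_Q (f : ℤ[X]) (θ : ℂ) : aeval θ (Q f) = aeval θ f := by
  rw [Q, aeval_def, eval₂_map, aeval_def]
  congr 1

/-- an enumeration of the roots -/
lemma enum_roots (g : ℤ[X]) (hg : (Q g).Separable) (d : ℕ)
    (hd : g.natDegree = d) : ∃ θ : Fin d → ℂ, Function.Injective θ ∧ (∀ i, aeval (θ i) (Q g) = 0) ∧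
      ∀ F : ℂ → ℂ, ∑ i, F (θ i) =
        ∑ r ∈ ((Q g).map (algebraMap ℚ ℂ)).roots.toFinset, F r := by
  classical
  obtain ⟨s, hs⟩ : ∃ s, s = ((Q g).map (algebraMap ℚ ℂ)).roots.toFinset :=
    ⟨_, rfl⟩
  have hdeg : ((Q g).map (algebraMap ℚ ℂ)).natDegree = d := by
    rw [natDegree_map, Q, natDegree_map_eq_of_injective (RingHom.injective_int _), hd]
  have hcard : s.card = d := by
    rw [hs, Multiset.toFinset_card_of_nodup (nodup_roots hg.map), ← hdeg]
    exact (splits_iff_card_roots.1 (IsAlgClosed.splits _))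
  have hmem : ∀ r ∈ s, aeval r (Q g) = 0 := by
    intro r hr
    rw [hs, Multiset.mem_toFinset] at hr
    have h3 := (mem_roots'.1 hr).2
    rwa [IsRoot.def, eval_map_algebraMap] at h3
  let e := s.equivFinOfCardEq hcard
  refine ⟨fun i => (e.symm i).1, fun i j h => e.symm.injective (Subtype.ext h),
    fun i => hmem _ (e.symm i).2, fun F => ?_⟩
  · rw [← hs, ← Finset.sum_coe_sort s F]
    exact Equiv.sum_comp e.symm (fun r : s => F r.1)

/-- the roots are not large -/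
lemma root_le {f : ℤ[X]} (hf : f ≠ 0) {H : ℕ} (hH : ∀ i, |f.coeff i| ≤ H) {θ : ℂ}
    (hθ : aeval θ (Q f) = 0) : ‖θ‖ ≤ H + 1 := by
  set p : ℂ[X] := (Q f).map (algebraMap ℚ ℂ) with hp
  have hcoeff : ∀ i, p.coeff i = ((f.coeff i : ℤ) : ℂ) := by
    intro i
    rw [hp, coeff_map, Q, coeff_map]
    simp
  have hp0 : p ≠ 0 := by
    intro h
    apply hf
    ext i
    have h1 := hcoeff i
    rw [h, coeff_zero] at h1
    rw [coeff_zero]
    exact_mod_cast h1.symm
  have hr : p.IsRoot θ := by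
    rw [IsRoot.def, hp, eval_map_algebraMap]
    exact hθ
  have h1 := hr.norm_lt_cauchyBound hp0
  have hnorm : ∀ i, ‖p.coeff i‖₊ ≤ (H : NNReal) := by
    intro i
    rw [← NNReal.coe_le_coe, coe_nnnorm, hcoeff, Complex.norm_intCast]
    have h' : ((|f.coeff i| : ℤ) : ℝ) ≤ ((H : ℤ) : ℝ) := Int.cast_le.2 (hH i)
    rw [Int.cast_abs] at h'
    simpa using h'
  have hlc : 1 ≤ ‖p.leadingCoeff‖₊ := by
    have h2 : p.leadingCoeff ≠ 0 := leadingCoeff_ne_zero.2 hp0
    rw [leadingCoeff, hcoeff] at h2 ⊢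
    rw [← NNReal.coe_le_coe, coe_nnnorm, Complex.norm_intCast]
    have h3 : f.coeff p.natDegree ≠ 0 := by exact_mod_cast h2
    have h4 := Int.one_le_abs h3
    push_cast
    exact_mod_cast h4
  have h2 : cauchyBound p ≤ (H : NNReal) + 1 := by
    rw [cauchyBound]
    gcongr
    calc (Finset.sup (Finset.range p.natDegree) fun i => ‖p.coeff i‖₊) / ‖p.leadingCoeff‖₊
        ≤ (Finset.sup (Finset.range p.natDegree) fun i => ‖p.coeff i‖₊) / 1 := by gcongr
      _ ≤ (H : NNReal) := by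
          rw [div_one]
          exact Finset.sup_le fun i _ => hnorm i
  have h3 := h1.le.trans h2
  rw [← NNReal.coe_le_coe] at h3
  simpa using h3

/-- the power sums are integers -/
lemma int_sum {f : ℤ[X]} (hsep : (Q f).Separable) {n : ℕ} (θ : Fin n → ℂ)
    (hθ0 : ∀ i, aeval (θ i) (Q f) = 0)
    (hθs : ∀ F : ℂ → ℂ, ∑ i, F (θ i) =
        ∑ r ∈ ((Q f).map (algebraMap ℚ ℂ)).roots.toFinset, F r) (D : ℚ[X])
    (hD : ∀ i, IsIntegral ℤ (aeval (θ i) D)) (k : ℕ) :
    ∃ z : ℤ, (z : ℂ) = ∑ i, aeval (θ i) D * ((f.leadingCoeff : ℂ) * θ i) ^ k := by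
  obtain ⟨q, hq⟩ := Pool.Agent.Y910.R.trace_rat _ hsep (D * (C (f.leadingCoeff : ℚ) * X) ^ k)
  have h1 : (q : ℂ) = ∑ i, aeval (θ i) D * ((f.leadingCoeff : ℂ) * θ i) ^ k := by
    rw [← hq]
    refine (hθs (fun r => ((D * (C (f.leadingCoeff : ℚ) * X) ^ k).map
      (algebraMap ℚ ℂ)).eval r)).symm.trans ?_
    refine Finset.sum_congr rfl fun i _ => ?_
    rw [eval_map_algebraMap, map_mul, map_pow, map_mul, aeval_X, aeval_C]
    simp
  have h2 : IsIntegral ℤ (q : ℂ) := by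
    rw [h1]
    apply IsIntegral.sum
    intro i _
    have h5 : IsIntegral ℤ ((f.leadingCoeff : ℂ) * θ i) := by
      have := isIntegral_leadingCoeff_smul f (θ i) ((aeval_Q f (θ i)).symm.trans (hθ0 i))
      rwa [zsmul_eq_mul] at this
    exact (hD i).mul (h5.pow k)
  have h3 : IsIntegral ℤ q := by
    have h4 : IsIntegral ℤ (algebraMap ℚ ℂ q) := by simpa using h2
    exact (isIntegral_algebraMap_iff (algebraMap ℚ ℂ).injective).1 h4
  obtain ⟨z, hz⟩ := IsIntegrallyClosed.isIntegral_iff.1 h3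
  refine ⟨z, ?_⟩
  rw [← h1, ← hz]
  simp

/-- equal values at all roots -/
lemma dvd_of_roots {f : ℤ[X]} (hsep : (Q f).Separable) {P : ℚ[X]}
    (h : ∀ θ : ℂ, aeval θ (Q f) = 0 → aeval θ P = 0) : Q f ∣ P := by
  classical
  by_cases hP : P = 0
  · rw [hP]
    exact dvd_zero _
  rw [← Polynomial.map_dvd_map' (algebraMap ℚ ℂ)]
  have hP0 : P.map (algebraMap ℚ ℂ) ≠ 0 := Polynomial.map_ne_zero hP
  have hf0 : (Q f).map (algebraMap ℚ ℂ) ≠ 0 := Polynomial.map_ne_zero hsep.ne_zero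
  apply (IsAlgClosed.splits _).dvd_of_roots_le_roots hf0
  rw [Multiset.le_iff_subset (nodup_roots hsep.map)]
  intro θ hθ
  rw [mem_roots hf0, IsRoot.def, eval_map_algebraMap] at hθ
  rw [mem_roots hP0, IsRoot.def, eval_map_algebraMap]
  exact h θ hθ

/-- CLS -/
theorem t_CLS : S_CLS := by
  classical
  intro d
  refine ⟨(2 * d + 1) * 2 ^ d + (2 * d + 1) * d, ?_⟩
  intro H K f s D hH hK hd hsep hcoef hD hinj
  have hf0 : f ≠ 0 := by
    rintro rfl
    rw [Q, Polynomial.map_zero] at hsep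
    exact not_separable_zero hsep
  obtain ⟨n, hn⟩ : ∃ n, n = f.natDegree := ⟨_, rfl⟩
  rw [← hn] at hd
  obtain ⟨θ, hθi, hθ0, hθs⟩ := enum_roots f hsep n hn.symm
  have hlc : f.leadingCoeff ≠ 0 := leadingCoeff_ne_zero.2 hf0
  have hlcC : (f.leadingCoeff : ℂ) ≠ 0 := by exact_mod_cast hlc
  have hex : ∀ x : ℤ, ∀ k : Fin n, ∃ z : ℤ, x ∈ s →
      (z : ℂ) = ∑ i, aeval (θ i) (D x) * ((f.leadingCoeff : ℂ) * θ i) ^ (k : ℕ) := by
    intro x k
    by_cases hx : x ∈ s
    · obtain ⟨z, hz⟩ := int_sum hsep θ hθ0 hθs (D x) (fun i => (hD x hx _ (hθ0 i)).1) k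
      exact ⟨z, fun _ => hz⟩
    · exact ⟨0, fun h => absurd h hx⟩
  choose t ht using hex
  set M : ℕ := n * ((2 * H ^ 2) ^ n * K) with hM
  -- the bound
  have haθ : ∀ i, ‖(f.leadingCoeff : ℂ) * θ i‖ ≤ 2 * (H : ℝ) ^ 2 := by
    intro i
    have h1 := root_le hf0 hcoef (hθ0 i)
    have h2 : ‖(f.leadingCoeff : ℂ)‖ ≤ H := by
      rw [Complex.norm_intCast]
      exact_mod_cast hcoef f.natDegree
    have h3 : (1 : ℝ) ≤ H := by exact_mod_cast hH
    rw [norm_mul]
    calc ‖(f.leadingCoeff : ℂ)‖ * ‖θ i‖ ≤ H * (H + 1) := by gcongr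
      _ ≤ 2 * (H : ℝ) ^ 2 := by nlinarith
  have h2H : (1 : ℝ) ≤ 2 * (H : ℝ) ^ 2 := by
    have h3 : (1 : ℝ) ≤ H := by exact_mod_cast hH
    nlinarith
  have htM : ∀ x ∈ s, ∀ k, |t x k| ≤ (M : ℤ) := by
    intro x hx k
    have h1 : ‖((t x k : ℤ) : ℂ)‖ ≤ (M : ℝ) := by
      rw [ht x k hx]
      calc ‖∑ i, aeval (θ i) (D x) * ((f.leadingCoeff : ℂ) * θ i) ^ (k : ℕ)‖
          ≤ ∑ i : Fin n, ‖aeval (θ i) (D x) * ((f.leadingCoeff : ℂ) * θ i) ^ (k : ℕ)‖ :=
            norm_sum_le _ _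
        _ ≤ ∑ _i : Fin n, (K : ℝ) * (2 * (H : ℝ) ^ 2) ^ n := by
            refine Finset.sum_le_sum fun i _ => ?_
            rw [norm_mul, norm_pow]
            have h4 := (hD x hx _ (hθ0 i)).2
            have h5 : ‖(f.leadingCoeff : ℂ) * θ i‖ ^ (k : ℕ) ≤ (2 * (H : ℝ) ^ 2) ^ n :=
              (pow_le_pow_left₀ (norm_nonneg _) (haθ i) _).trans
                (pow_le_pow_right₀ h2H k.2.le)
            gcongr
        _ = (M : ℝ) := by
            rw [Finset.sum_const, Finset.card_univ, Fintype.card_fin, hM, nsmul_eq_mul]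
            push_cast
            ring
    rw [Complex.norm_intCast] at h1
    exact_mod_cast h1
  -- the map
  have hcard : s.card ≤ (Fintype.piFinset fun _ : Fin n => Finset.Icc (-(M : ℤ)) M).card := by
    refine Finset.card_le_card_of_injOn (fun x => t x) ?_ ?_
    · intro x hx
      rw [Finset.mem_coe, Fintype.mem_piFinset]
      intro k
      rw [Finset.mem_Icc, ← abs_le]
      exact htM x hx k
    · intro x hx x' hx' hxx'
      have hx : x ∈ s := hx
      have hx' : x' ∈ s := hx'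
      apply hinj x hx x' hx'
      apply dvd_of_roots hsep
      have h1 : (fun i => aeval (θ i) (D x) - aeval (θ i) (D x')) = 0 := by
        apply Matrix.eq_zero_of_forall_pow_sum_mul_pow_eq_zero
          (f := fun i => (f.leadingCoeff : ℂ) * θ i)
        · intro i j hij
          exact hθi (mul_left_cancel₀ hlcC hij)
        · intro k
          have h3 : t x k = t x' k := congrFun hxx' k
          simp only [sub_mul]
          rw [Finset.sum_sub_distrib, ← ht x k hx, ← ht x' k hx', h3, sub_self]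
      intro r hr
      obtain ⟨i, rfl⟩ : ∃ i, θ i = r := by
        by_contra hcon
        push Not at hcon
        have h2 := hθs fun z => if z = r then 1 else 0
        rw [Finset.sum_eq_zero (fun i _ => if_neg (hcon i))] at h2
        have h3 : r ∈ ((Q f).map (algebraMap ℚ ℂ)).roots.toFinset := by
          rw [Multiset.mem_toFinset, mem_roots (Polynomial.map_ne_zero hsep.ne_zero), IsRoot.def,
            eval_map_algebraMap]
          exact hr
        rw [Finset.sum_ite_eq' _ r, if_pos h3] at h2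
        exact zero_ne_one h2
      rw [map_sub]
      exact congrFun h1 i
  rw [Fintype.card_piFinset] at hcard
  simp only [Int.card_Icc, Finset.prod_const, Finset.card_univ, Fintype.card_fin] at hcard
  have hcard' : s.card ≤ (2 * M + 1) ^ n := by
    refine hcard.trans (le_of_eq ?_)
    congr 1
    omega
  refine hcard'.trans ?_
  set A : ℕ := (2 * d + 1) * 2 ^ d with hA
  have hA1 : 1 ≤ A := Nat.one_le_iff_ne_zero.2 (by positivity)
  have hbase : 2 * M + 1 ≤ (A * H * K) ^ (2 * d + 1) := by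
    have hH2 : 1 ≤ 2 * H ^ 2 := by nlinarith
    have e1 : (2 * H ^ 2) ^ n ≤ (2 * H ^ 2) ^ d := Nat.pow_le_pow_right hH2 hd
    have e2 : 1 ≤ (2 * H ^ 2) ^ d := Nat.one_le_pow _ _ hH2
    have e3 : M ≤ d * ((2 * H ^ 2) ^ d * K) := by
      rw [hM]
      gcongr
    have e4 : 1 ≤ (2 * H ^ 2) ^ d * K := Nat.one_le_iff_ne_zero.2 (by positivity)
    have e5 : 2 * M + 1 ≤ (2 * d + 1) * ((2 * H ^ 2) ^ d * K) := by nlinarith
    refine e5.trans ?_
    have e6 : (2 * d + 1) * ((2 * H ^ 2) ^ d * K) = A * H ^ (2 * d) * K := by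
      rw [hA, mul_pow, ← pow_mul]
      ring
    rw [e6, mul_pow, mul_pow]
    have e7 : A ≤ A ^ (2 * d + 1) := Nat.le_self_pow (by omega) A
    have e8 : H ^ (2 * d) ≤ H ^ (2 * d + 1) := Nat.pow_le_pow_right hH (by omega)
    have e9 : K ≤ K ^ (2 * d + 1) := Nat.le_self_pow (by omega) K
    gcongr
  have hAHK : 1 ≤ A * H * K := Nat.one_le_iff_ne_zero.2 (by positivity)
  calc (2 * M + 1) ^ n ≤ ((A * H * K) ^ (2 * d + 1)) ^ n := Nat.pow_le_pow_left hbase _
    _ = (A * H * K) ^ ((2 * d + 1) * n) := (pow_mul _ _ _).symm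
    _ ≤ (A * H * K) ^ (A + (2 * d + 1) * d) := by
        apply Nat.pow_le_pow_right hAHK
        have : (2 * d + 1) * n ≤ (2 * d + 1) * d := Nat.mul_le_mul_left _ hd
        omega
    _ ≤ ((A + (2 * d + 1) * d) * H * K) ^ (A + (2 * d + 1) * d) := by
        apply Nat.pow_le_pow_left
        gcongr
        omega

end Pool.Agent.H41H
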