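import Pool.Agent.H41H.Stm
import Pool.Agent.Helper29S.Dim
import Pool.Agent.R485.AN.Pow

/-!
# Project HG: from the count to the metric statements (helper41)
-/

set_option autoImplicit false

namespace Pool.Agent.H41H

open Polynomial Filter Topology

/-- the height of an integer -/
noncomputable def hz (z : ℤ) : ℝ := Real.log (max |(z : ℝ)| 1)

/-- the largest absolute value of a coefficient -/
def Mx (f : ℤ[X]) : ℕ := f.support.sup fun i => (f.coeff i).natAbs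

/-- the height of a polynomial -/
noncomputable def hp (f : ℤ[X]) : ℝ := Real.log (max (Mx f : ℝ) 1)

/-- the polynomials -/
def Crv (d : ℕ) (f : ℤ[X]) : Prop := 3 ≤ f.natDegree ∧ f.natDegree ≤ d ∧ (Q f).Separable

/-- the height of a rational number -/
def Hx (x : ℚ) : ℝ := max |(x.num : ℝ)| x.den

/-- the violations of the inequality -/
def Bad (d : ℕ) (κ : ℝ) (x : ℚ) : Prop :=
  ∃ (f : ℤ[X]) (b : ℤ) (y : ℚ), Crv d f ∧ b ≠ 0 ∧ (b : ℚ) * y ^ 2 = aeval x f ∧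
    κ * (1 + hp f + hz b + Real.log x.den) < Real.log (Hx x)

lemma one_le_den (x : ℚ) : (1 : ℝ) ≤ x.den := by exact_mod_cast x.den_pos

lemma one_le_Hx (x : ℚ) : 1 ≤ Hx x := (one_le_den x).trans (le_max_right _ _)

lemma log_den_nonneg (x : ℚ) : 0 ≤ Real.log x.den := Real.log_nonneg (one_le_den x)

lemma hz_nonneg (z : ℤ) : 0 ≤ hz z := Real.log_nonneg (le_max_right _ _)

lemma hp_nonneg (f : ℤ[X]) : 0 ≤ hp f := Real.log_nonneg (le_max_right _ _)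

lemma coeff_le (f : ℤ[X]) (i : ℕ) : |f.coeff i| ≤ (Mx f : ℤ) := by
  by_cases hi : f.coeff i = 0
  · rw [hi, abs_zero]
    exact Int.natCast_nonneg _
  · have h1 : (f.coeff i).natAbs ≤ Mx f :=
      Finset.le_sup (f := fun i => (f.coeff i).natAbs) (mem_support_iff.2 hi)
    rw [Int.abs_eq_natAbs]
    exact_mod_cast h1

lemma le_exp_hz (z : ℤ) : |(z : ℝ)| ≤ Real.exp (hz z) := by
  rw [hz, Real.exp_log (by positivity)]
  exact le_max_left _ _

lemma le_exp_hp (f : ℤ[X]) : (Mx f : ℝ) ≤ Real.exp (hp f) := by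
  rw [hp, Real.exp_log (by positivity)]
  exact le_max_left _ _

/-- the large points -/
def Large (d : ℕ) (κ H : ℝ) : Set ℚ :=
  {x | H ^ κ < Hx x ∧ (x.den : ℝ) ≤ H ∧ ∃ (f : ℤ[X]) (b : ℤ) (y : ℚ), Crv d f ∧ b ≠ 0 ∧
    (b : ℚ) * y ^ 2 = aeval x f ∧ (Mx f : ℝ) ≤ H ∧ |(b : ℝ)| ≤ H}

/-- the polynomial `b s ^ (2 n) f (X / s)` -/
noncomputable def Gp (f : ℤ[X]) (b : ℤ) (s : ℕ) : ℤ[X] :=
  C (b * (s : ℤ) ^ f.natDegree) * f.scaleRoots (s : ℤ)

lemma Gp_natDegree {f : ℤ[X]} {b : ℤ} {s : ℕ} (hb : b ≠ 0) (hs : 1 ≤ s) :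
    (Gp f b s).natDegree = f.natDegree := by
  have hs0 : (s : ℤ) ≠ 0 := by exact_mod_cast (by omega : s ≠ 0)
  rw [Gp, natDegree_C_mul (mul_ne_zero hb (pow_ne_zero _ hs0)), natDegree_scaleRoots]

lemma Gp_coeff {f : ℤ[X]} {b : ℤ} {s N d : ℕ} (hs : 1 ≤ s) (hsN : s ≤ N) (hfd : f.natDegree ≤ d)
    (hb : |b| ≤ (N : ℤ)) (hf : Mx f ≤ N) (i : ℕ) :
    |(Gp f b s).coeff i| ≤ ((N ^ (2 * d + 2) : ℕ) : ℤ) := by
  have hN : 1 ≤ N := hs.trans hsN
  have hs0 : (0 : ℤ) ≤ s := Int.natCast_nonneg _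
  have hN0 : (0 : ℤ) ≤ N := Int.natCast_nonneg _
  have hsN' : (s : ℤ) ≤ N := by exact_mod_cast hsN
  have hN1 : (1 : ℤ) ≤ N := by exact_mod_cast hN
  have hc : |f.coeff i| ≤ (N : ℤ) := (coeff_le f i).trans (by exact_mod_cast hf)
  have hp : ∀ k : ℕ, k ≤ d → (s : ℤ) ^ k ≤ (N : ℤ) ^ d := by
    intro k hk
    exact (pow_le_pow_left₀ hs0 hsN' k).trans (pow_le_pow_right₀ hN1 hk)
  rw [Gp, coeff_C_mul, coeff_scaleRoots, abs_mul, abs_mul, abs_mul, abs_of_nonneg (pow_nonneg hs0 _),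
    abs_of_nonneg (pow_nonneg hs0 _)]
  calc |b| * (s : ℤ) ^ f.natDegree * (|f.coeff i| * (s : ℤ) ^ (f.natDegree - i))
      ≤ N * (N : ℤ) ^ d * (N * (N : ℤ) ^ d) := by
        apply mul_le_mul
        · exact mul_le_mul hb (hp _ hfd) (pow_nonneg hs0 _) hN0
        · exact mul_le_mul hc (hp _ (by omega)) (pow_nonneg hs0 _) hN0
        · exact mul_nonneg (abs_nonneg _) (pow_nonneg hs0 _)
        · positivity
    _ = ((N ^ (2 * d + 2) : ℕ) : ℤ) := by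
        push_cast
        ring

lemma Gp_eval {f : ℤ[X]} {b : ℤ} {x y : ℚ} (h : (b : ℚ) * y ^ 2 = aeval x f) :
    ∃ z : ℤ, (Gp f b x.den).eval x.num = z ^ 2 := by
  have hs0 : (x.den : ℚ) ≠ 0 := by exact_mod_cast x.den_nz
  have h1 : (((f.scaleRoots (x.den : ℤ)).eval x.num : ℤ) : ℚ) =
      (x.den : ℚ) ^ f.natDegree * aeval x f := by
    have h2 := scaleRoots_eval₂_mul (p := f) (Int.castRingHom ℚ) x (x.den : ℤ)
    have h3 : (Int.castRingHom ℚ) (x.den : ℤ) * x = (Int.castRingHom ℚ) x.num := by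
      rw [eq_intCast, eq_intCast, Int.cast_natCast, mul_comm]
      exact Rat.mul_den_eq_num x
    rw [h3, eval₂_at_apply] at h2
    rw [aeval_def]
    rw [eq_intCast] at h2
    rw [h2, eq_intCast, Int.cast_natCast]
    rfl
  have h4 : ((((Gp f b x.den).eval x.num : ℤ)) : ℚ) = (b * x.den ^ f.natDegree * y) ^ 2 := by
    rw [Gp, eval_mul, eval_C, Int.cast_mul, h1, ← h]
    push_cast
    ring
  have h5 : IsSquare ((((Gp f b x.den).eval x.num : ℤ)) : ℚ) := ⟨_, by rw [h4, pow_two]⟩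
  rw [Rat.isSquare_intCast_iff] at h5
  obtain ⟨z, hz⟩ := h5
  exact ⟨z, by rw [hz, pow_two]⟩

lemma Gp_separable {f : ℤ[X]} {b : ℤ} {s : ℕ} (hb : b ≠ 0) (hs : 1 ≤ s) (hf : (Q f).Separable) :
    (Q (Gp f b s)).Separable := by
  have hs0 : (s : ℚ) ≠ 0 := by exact_mod_cast (by omega : s ≠ 0)
  have hb0 : (b : ℚ) ≠ 0 := by exact_mod_cast hb
  obtain ⟨q, hq⟩ : ∃ q : ℚ[X], q = C ((s : ℚ)⁻¹) * X := ⟨_, rfl⟩
  have hdq : derivative q = C ((s : ℚ)⁻¹) := by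
    rw [hq, derivative_C_mul, derivative_X, mul_one]
  have h1 : ((Q f).comp q).Separable := by
    rw [separable_def, derivative_comp, hdq]
    have h2 : IsCoprime ((Q f).comp q) ((derivative (Q f)).comp q) := by
      have := IsCoprime.map hf (compRingHom q)
      simpa [coe_compRingHom] using this
    have hu : IsUnit (C ((s : ℚ)⁻¹)) := by
      rw [isUnit_C, isUnit_iff_ne_zero]
      exact inv_ne_zero hs0
    exact (isCoprime_mul_unit_left_right hu _ _).2 h2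
  have h3 : Q (Gp f b s) = C ((b : ℚ) * (s : ℚ) ^ f.natDegree * (s : ℚ) ^ f.natDegree) *
      (Q f).comp q := by
    ext i
    rw [Q, coeff_map, Gp, coeff_C_mul, coeff_scaleRoots, coeff_C_mul, hq, comp_C_mul_X_coeff,
      Q, coeff_map]
    simp only [eq_intCast]
    push_cast
    rcases le_or_gt i f.natDegree with hi | hi
    · have h4 : (s : ℚ) ^ f.natDegree * ((s : ℚ)⁻¹) ^ i = (s : ℚ) ^ (f.natDegree - i) := by
        rw [pow_sub₀ _ hs0 hi, inv_pow]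
      rw [← h4]
      ring
    · rw [coeff_eq_zero_of_natDegree_lt hi]
      simp
  rw [h3]
  refine Separable.unit_mul ?_ h1
  rw [isUnit_C, isUnit_iff_ne_zero]
  positivity

theorem large_count (h : S_ALL) (d : ℕ) : ∃ κ : ℝ, 1 ≤ κ ∧ ∀ H : ℝ, 2 ≤ H →
    (Large d κ H).Finite ∧ ((Large d κ H).ncard : ℝ) ≤ H ^ κ := by
  classical
  obtain ⟨c, hc⟩ := h d
  obtain ⟨k, hk⟩ : ∃ k : ℕ, k = c * (c + (2 * d + 2)) := ⟨_, rfl⟩
  refine ⟨((k + 2 : ℕ) : ℝ), by push_cast; linarith [(Nat.cast_nonneg k : (0 : ℝ) ≤ k)],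
    fun H hH => ?_⟩
  have hH0 : 0 < H := by linarith
  have hH1 : 1 ≤ H := by linarith
  obtain ⟨N, hN⟩ : ∃ N : ℕ, N = ⌊H⌋₊ := ⟨_, rfl⟩
  have hn2 : 2 ≤ N := by rw [hN]; exact Nat.le_floor (by exact_mod_cast hH)
  have hnH : (N : ℝ) ≤ H := by rw [hN]; exact Nat.floor_le hH0.le
  have hkey : (((c * (N ^ (2 * d + 2))) ^ c : ℕ) : ℝ) ≤ H ^ k := by
    have h1 : (c : ℝ) ≤ H ^ c := by
      have h2 : c ≤ 2 ^ c := Nat.lt_two_pow_self.le
      calc (c : ℝ) ≤ (2 : ℝ) ^ c := by exact_mod_cast h2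
        _ ≤ H ^ c := pow_le_pow_left₀ (by norm_num) hH c
    push_cast
    calc ((c : ℝ) * (N : ℝ) ^ (2 * d + 2)) ^ c ≤ (H ^ c * H ^ (2 * d + 2)) ^ c := by
          apply pow_le_pow_left₀ (by positivity)
          exact mul_le_mul h1 (pow_le_pow_left₀ (by positivity) hnH _) (by positivity)
            (by positivity)
      _ = H ^ k := by
          rw [← pow_add, ← pow_mul, hk, mul_comm]
  have hpow : H ^ k * H ≤ H ^ ((k + 2 : ℕ) : ℝ) := by
    rw [Real.rpow_natCast, ← pow_succ]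
    exact pow_le_pow_right₀ hH1 (by omega)
  have hHk : H ≤ H ^ ((k + 2 : ℕ) : ℝ) := by
    have h1 : 1 ≤ H ^ k := one_le_pow₀ hH1
    nlinarith
  have hkey2 : (((c * (N ^ (2 * d + 2))) ^ c : ℕ) : ℝ) ≤ H ^ ((k + 2 : ℕ) : ℝ) := by
    have h1 : 0 ≤ H ^ k := by positivity
    nlinarith
  have hfl : ∀ m : ℕ, (m : ℝ) ≤ H → m ≤ N := fun m hm => by rw [hN]; exact Nat.le_floor hm
  apply Pool.Agent.Helper29S.finite_of_card
  intro F hF
  have h1 : F.card ≤ ((c * N ^ (2 * d + 2)) ^ c) * (F.image Rat.den).card := by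
    refine Finset.card_le_mul_card_image F _ ?_
    intro s _
    have h2 := hc (N ^ (2 * d + 2)) ((F.filter fun x => x.den = s).image Rat.num)
      (Nat.pow_pos (by omega)) (by
        intro r hr
        obtain ⟨x, hx, rfl⟩ := Finset.mem_image.1 hr
        obtain ⟨hxF, hxs⟩ := Finset.mem_filter.1 hx
        obtain ⟨h3, h4, f, b, y, ⟨h5, h6, h7⟩, h8, h9, h10, h11⟩ := hF hxF
        have hden : 1 ≤ x.den := x.den_pos
        have hbN : |b| ≤ (N : ℤ) := by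
          have e0 : ((b.natAbs : ℕ) : ℝ) ≤ H := by
            rwa [Nat.cast_natAbs, Int.cast_abs]
          rw [Int.abs_eq_natAbs]
          exact_mod_cast hfl _ e0
        refine ⟨?_, Gp f b x.den, ?_, ?_, Gp_separable h8 hden h7,
          Gp_coeff hden (hfl _ h4) h6 hbN (hfl _ h10), Gp_eval h9⟩
        · rcases lt_max_iff.1 h3 with h12 | h12
          · have h13 := lt_of_le_of_lt hkey2 h12
            exact_mod_cast h13
          · exact absurd (h12.trans_le h4) (not_lt.2 hHk)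
        · rwa [Gp_natDegree h8 hden]
        · rwa [Gp_natDegree h8 hden])
    rwa [Finset.card_image_of_injOn] at h2
    intro x hx x' hx' hxx
    have e1 := (Finset.mem_filter.1 (Finset.mem_coe.1 hx)).2
    have e2 := (Finset.mem_filter.1 (Finset.mem_coe.1 hx')).2
    exact Rat.ext hxx (e1.trans e2.symm)
  have h2 : (F.image Rat.den).card ≤ N := by
    have h3 : F.image Rat.den ⊆ Finset.Icc 1 N := by
      intro s hs
      obtain ⟨x, hx, rfl⟩ := Finset.mem_image.1 hs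
      rw [Finset.mem_Icc]
      exact ⟨x.den_pos, hfl _ (hF hx).2.1⟩
    have h4 := Finset.card_le_card h3
    rwa [Nat.card_Icc, Nat.add_sub_cancel] at h4
  have h3 : F.card ≤ ((c * N ^ (2 * d + 2)) ^ c) * N := h1.trans (Nat.mul_le_mul_left _ h2)
  have h4 : (F.card : ℝ) ≤ (((c * N ^ (2 * d + 2)) ^ c : ℕ) : ℝ) * (N : ℝ) := by
    exact_mod_cast h3
  refine h4.trans (le_trans ?_ hpow)
  exact mul_le_mul hkey hnH (Nat.cast_nonneg _) (by positivity)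

/-- the rational numbers of small height -/
lemma small_card (T : ℝ) (hT : 1 ≤ T) : ∃ S : Finset ℚ, (∀ x : ℚ, Hx x ≤ T → x ∈ S) ∧
    (S.card : ℝ) ≤ 3 * T ^ 2 := by
  classical
  have hT0 : 0 ≤ T := by linarith
  refine ⟨((Finset.Icc (-(⌊T⌋₊ : ℤ)) ⌊T⌋₊) ×ˢ (Finset.Icc 1 ⌊T⌋₊)).image
    fun p : ℤ × ℕ => (p.1 : ℚ) / p.2, fun x hx => ?_, ?_⟩
  · rw [Finset.mem_image]
    refine ⟨(x.num, x.den), ?_, Rat.num_div_den x⟩
    rw [Finset.mem_product, Finset.mem_Icc, Finset.mem_Icc]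
    refine ⟨abs_le.1 ?_, x.den_pos, Nat.le_floor ((le_max_right _ _).trans hx)⟩
    have h8 : x.num.natAbs ≤ ⌊T⌋₊ := by
      apply Nat.le_floor
      rw [Nat.cast_natAbs, Int.cast_abs]
      exact (le_max_left _ _).trans hx
    simp only
    rw [Int.abs_eq_natAbs]
    exact_mod_cast h8
  · have h1 := Finset.card_image_le (s := (Finset.Icc (-(⌊T⌋₊ : ℤ)) ⌊T⌋₊) ×ˢ (Finset.Icc 1 ⌊T⌋₊))
      (f := fun p : ℤ × ℕ => (p.1 : ℚ) / p.2)
    rw [Finset.card_product, Int.card_Icc, Nat.card_Icc, Nat.add_sub_cancel] at h1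
    have e1 : ((⌊T⌋₊ : ℤ) + 1 - -(⌊T⌋₊ : ℤ)).toNat = 2 * ⌊T⌋₊ + 1 := by omega
    rw [e1] at h1
    have h2 : (⌊T⌋₊ : ℝ) ≤ T := Nat.floor_le hT0
    have h3 : (((2 * ⌊T⌋₊ + 1) * ⌊T⌋₊ : ℕ) : ℝ) ≤ 3 * T ^ 2 := by
      push_cast
      have h4 : (0 : ℝ) ≤ (⌊T⌋₊ : ℝ) := Nat.cast_nonneg _
      nlinarith
    exact le_trans (by exact_mod_cast h1) h3

theorem bad_count (h : S_ALL) (d : ℕ) : ∃ κ : ℝ, 1 ≤ κ ∧
    (∀ H : ℝ, 2 ≤ H → (Large d κ H).Finite ∧ ((Large d κ H).ncard : ℝ) ≤ H ^ κ) ∧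
    ∀ K : ℝ, 0 < K → ∀ X : ℝ, 1 ≤ X → {x : ℚ | Bad d K x ∧ Hx x ≤ X}.Finite ∧
      ({x : ℚ | Bad d K x ∧ Hx x ≤ X}.ncard : ℝ) ≤ κ * X ^ (κ / K) := by
  obtain ⟨κ, hκ1, h1⟩ := large_count h d
  have hκ : 0 < κ := by linarith
  have h2pos : (0 : ℝ) < 2 ^ (2 * κ) := by positivity
  obtain ⟨κ', hκ'⟩ : ∃ κ' : ℝ, κ' = 2 * κ + 4 * 2 ^ (2 * κ) := ⟨_, rfl⟩
  have hκκ' : κ ≤ κ' := by rw [hκ']; linarith
  refine ⟨κ', by linarith, fun H hH => ?_, fun K hK X hX => ?_⟩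
  · have h3 := h1 H hH
    have h4 : H ^ κ ≤ H ^ κ' := Real.rpow_le_rpow_of_exponent_le (by linarith) hκκ'
    have h5 : Large d κ' H ⊆ Large d κ H := by
      rintro x ⟨h6, h7⟩
      exact ⟨lt_of_le_of_lt h4 h6, h7⟩
    refine ⟨h3.1.subset h5, ?_⟩
    have h6 : ((Large d κ' H).ncard : ℝ) ≤ (Large d κ H).ncard := by
      exact_mod_cast Set.ncard_le_ncard h5 h3.1
    exact h6.trans (h3.2.trans h4)
  · obtain ⟨H, hH⟩ : ∃ H : ℝ, H = 2 * X ^ (1 / K) := ⟨_, rfl⟩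
    have hX0 : 0 < X := by linarith
    have hXK : 1 ≤ X ^ (1 / K) := Real.one_le_rpow hX (by positivity)
    have hH2 : 2 ≤ H := by rw [hH]; linarith
    have hHκ : (H ^ κ) ^ 2 = 2 ^ (2 * κ) * X ^ (2 * κ / K) := by
      have e0 : 0 ≤ H := by linarith
      rw [← Real.rpow_natCast (H ^ κ) 2, ← Real.rpow_mul e0, hH,
        Real.mul_rpow (by norm_num) (by positivity), ← Real.rpow_mul hX0.le]
      congr 2
      · push_cast; ring
      · push_cast; ring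
    obtain ⟨hf, hcard⟩ := h1 H hH2
    have hHκ1 : 1 ≤ H ^ κ := Real.one_le_rpow (by linarith) hκ.le
    obtain ⟨S, hS, hScard⟩ := small_card (H ^ κ) hHκ1
    have hsub : {x : ℚ | Bad d K x ∧ Hx x ≤ X} ⊆ Large d κ H ∪ (S : Set ℚ) := by
      rintro x ⟨⟨f, b, y, h3, h4, h5, h6⟩, h7⟩
      by_cases hx : H ^ κ < Hx x
      · left
        have h8 : Real.log (Hx x) ≤ Real.log X :=
          Real.log_le_log (by linarith [one_le_Hx x]) h7
        have h9 : 1 + hp f + hz b + Real.log x.den ≤ Real.log X / K := by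
          rw [le_div_iff₀ hK]
          linarith
        have h10 : ∀ t : ℝ, t ≤ Real.log X / K → Real.exp t ≤ H := by
          intro t ht
          calc Real.exp t ≤ Real.exp (Real.log X / K) := Real.exp_le_exp.2 ht
            _ = X ^ (1 / K) := by
              rw [Real.rpow_def_of_pos hX0]
              congr 1
              ring
            _ ≤ H := by rw [hH]; linarith
        have e1 := hz_nonneg b
        have e2 := hp_nonneg f
        have e3 := log_den_nonneg x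
        have e4 : (x.den : ℝ) ≤ H := by
          have := h10 (Real.log x.den) (by linarith)
          rwa [Real.exp_log (by linarith [one_le_den x])] at this
        exact ⟨hx, e4, f, b, y, h3, h4, h5, (le_exp_hp f).trans (h10 _ (by linarith)),
          (le_exp_hz b).trans (h10 _ (by linarith))⟩
      · right
        push Not at hx
        exact hS x hx
    have hfin : (Large d κ H ∪ (S : Set ℚ)).Finite := hf.union S.finite_toSet
    refine ⟨hfin.subset hsub, ?_⟩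
    have h3 : ({x : ℚ | Bad d K x ∧ Hx x ≤ X}.ncard : ℝ) ≤
        (Large d κ H).ncard + S.card := by
      have e1 := Set.ncard_le_ncard hsub hfin
      have e2 := Set.ncard_union_le (Large d κ H) (S : Set ℚ)
      rw [Set.ncard_coe_finset] at e2
      exact_mod_cast e1.trans e2
    have h4 : X ^ (2 * κ / K) ≤ X ^ (κ' / K) :=
      Real.rpow_le_rpow_of_exponent_le hX
        (div_le_div_of_nonneg_right (by rw [hκ']; linarith) hK.le)
    have h5 : 0 < X ^ (2 * κ / K) := by positivity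
    have h6 : H ^ κ ≤ (H ^ κ) ^ 2 := by nlinarith
    calc ({x : ℚ | Bad d K x ∧ Hx x ≤ X}.ncard : ℝ) ≤ 4 * (H ^ κ) ^ 2 := by linarith
      _ = 4 * 2 ^ (2 * κ) * X ^ (2 * κ / K) := by rw [hHκ]; ring
      _ ≤ κ' * X ^ (κ' / K) := by
        apply mul_le_mul (by rw [hκ']; linarith) h4 h5.le (by linarith)

lemma Bad.mono {d : ℕ} {κ κ' : ℝ} {x : ℚ} (h : κ ≤ κ') (hb : Bad d κ' x) : Bad d κ x := by
  obtain ⟨f, b, y, h3, h4, h5, h6⟩ := hb
  refine ⟨f, b, y, h3, h4, h5, lt_of_le_of_lt ?_ h6⟩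
  have := hp_nonneg f
  have := hz_nonneg b
  have := log_den_nonneg x
  exact mul_le_mul_of_nonneg_right h (by linarith)

lemma Bad.deg {d d' : ℕ} {κ : ℝ} {x : ℚ} (h : d ≤ d') (hb : Bad d κ x) : Bad d' κ x := by
  obtain ⟨f, b, y, ⟨h1, h2, h3⟩, h4, h5, h6⟩ := hb
  exact ⟨f, b, y, ⟨h1, h2.trans h, h3⟩, h4, h5, h6⟩

lemma not_bad {d : ℕ} (x : ℚ) {κ : ℝ} (hκ : Real.log (Hx x) ≤ κ) : ¬ Bad d κ x := by
  rintro ⟨f, b, y, -, -, -, h6⟩
  have h1 := hp_nonneg f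
  have h2 := hz_nonneg b
  have h3 := log_den_nonneg x
  have h0 : 0 ≤ Real.log (Hx x) := Real.log_nonneg (one_le_Hx x)
  have h4 : κ * 1 ≤ κ * (1 + hp f + hz b + Real.log x.den) :=
    mul_le_mul_of_nonneg_left (by linarith) (by linarith)
  linarith

/-- the metric law in one degree -/
theorem law_d (d : ℕ) {κ : ℝ} (hκ : 0 < κ)
    (hcount : ∀ K : ℝ, 0 < K → ∀ X : ℝ, 1 ≤ X → {x : ℚ | Bad d K x ∧ Hx x ≤ X}.Finite ∧
      ({x : ℚ | Bad d K x ∧ Hx x ≤ X}.ncard : ℝ) ≤ κ * X ^ (κ / K))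
    (Y : Type) [MetricSpace Y] (c : ℚ → Y) :
    (∃ E : Set Y, dimH E = 0 ∧ ∀ z : Y, z ∉ E → ∀ t : ℝ, 0 < t → ∃ K : ℝ, ∀ x : ℚ,
      dist z (c x) ≤ Hx x ^ (-t) → ¬ Bad d K x) ∧
    (∀ K t : ℝ, 0 < K → 0 < t → ∃ E : Set Y, dimH E ≤ ENNReal.ofReal (κ / K / t) ∧
      ∀ z : Y, z ∉ E → {x : ℚ | dist z (c x) ≤ Hx x ^ (-t) ∧ Bad d K x}.Finite) := by
  have hs0 : Tendsto (fun K : ℝ => κ / K) atTop (𝓝 0) := Filter.Tendsto.const_div_atTop tendsto_id κ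
  obtain ⟨h1, h2⟩ := Pool.Agent.Helper29S.law (X := Y) (ι := ℚ) (fun K x => Bad d K x) c
    Hx one_le_Hx
    (fun {K K' x} hK hb => hb.mono hK) (fun x => ⟨Real.log (Hx x), not_bad x le_rfl⟩)
    (κ₀ := 0) (fun K => κ / K) (fun K hK => by positivity) hs0
    (fun K hK ε hε => by
      refine ⟨κ, fun H hH F hF => ?_⟩
      obtain ⟨h3, h4⟩ := hcount K hK H hH
      have h5 : (F : Set ℚ) ⊆ {x : ℚ | Bad d K x ∧ Hx x ≤ H} := by
        intro x hx
        obtain ⟨h6, h7⟩ := hF x hx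
        exact ⟨h7, h6⟩
      have h6 := Set.ncard_le_ncard h5 h3
      rw [Set.ncard_coe_finset] at h6
      have h7 : (F.card : ℝ) ≤ κ * H ^ (κ / K) := le_trans (by exact_mod_cast h6) h4
      refine h7.trans (mul_le_mul_of_nonneg_left ?_ hκ.le)
      exact Real.rpow_le_rpow_of_exponent_le hH (by linarith))
  refine ⟨?_, h2⟩
  obtain ⟨E, hE, h3⟩ := h1
  refine ⟨E, hE, fun z hz t ht => ?_⟩
  obtain ⟨K, -, hK⟩ := h3 z hz t ht
  exact ⟨K, hK⟩

lemma Hx_int (x : ℤ) : Hx x = max |(x : ℝ)| 1 := by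
  rw [Hx, Rat.num_intCast, Rat.den_intCast, Nat.cast_one]

/-- the powers of a real number, one degree -/
theorem pow_d (d : ℕ) {κ : ℝ} (hκ : 0 < κ)
    (hcount : ∀ K : ℝ, 0 < K → ∀ X : ℝ, 1 ≤ X → {x : ℚ | Bad d K x ∧ Hx x ≤ X}.Finite ∧
      ({x : ℚ | Bad d K x ∧ Hx x ≤ X}.ncard : ℝ) ≤ κ * X ^ (κ / K))
    {v : ℕ → ℝ} (hv : Pool.Agent.R485.AN.Thin v) (K θ : ℝ) (hK : 0 < K) (hθ0 : 0 ≤ θ)
    (hθ1 : θ < 1) :
    ∃ E : Set ℝ, dimH E ≤ ENNReal.ofReal (κ / K / (1 - θ)) ∧ ∀ α : ℝ, 1 < α → α ∉ E →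
      ∃ n₀ : ℕ, ∀ n : ℕ, n₀ ≤ n → ∀ x : ℤ, |(|(x : ℝ)|) - α ^ (v n)| ≤ (α ^ (v n)) ^ θ →
        ¬ Bad d K x := by
  obtain ⟨P, hP⟩ : ∃ P : Set ℕ, P = {m : ℕ | 0 < m ∧ (Bad d K (((m : ℕ) : ℤ) : ℚ) ∨
    Bad d K ((-(m : ℤ) : ℤ) : ℚ))} := ⟨_, rfl⟩
  have hHx : ∀ (m : ℕ), 0 < m → Hx (((m : ℕ) : ℤ) : ℚ) = m ∧ Hx ((-(m : ℤ) : ℤ) : ℚ) = m := by
    intro m hm
    have h1 : (1 : ℝ) ≤ m := by exact_mod_cast hm
    constructor
    · rw [Hx_int, Int.cast_natCast, abs_of_nonneg (by positivity), max_eq_left h1]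
    · rw [Hx_int, Int.cast_neg, abs_neg, Int.cast_natCast, abs_of_nonneg (by positivity),
        max_eq_left h1]
  obtain ⟨E, h1, h2⟩ := Pool.Agent.R485.AN.dim_pow P (fun m hm => by rw [hP] at hm; exact hm.1)
    (s := κ / K) (by positivity) hθ0 hθ1
    (fun ε hε => by
      refine ⟨κ, by positivity, fun X hX => ?_⟩
      obtain ⟨h3, h4⟩ := hcount K hK X hX
      have h5 : {m : ℕ | m ∈ P ∧ (m : ℝ) ≤ X} ⊆
          (fun x : ℚ => x.num.natAbs) '' {x : ℚ | Bad d K x ∧ Hx x ≤ X} := by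
        rintro m ⟨hm, hmX⟩
        rw [hP] at hm
        rcases hm.2 with h6 | h6
        · exact ⟨_, ⟨h6, by rwa [(hHx m hm.1).1]⟩, by
            simp only [Rat.num_intCast, Int.natAbs_natCast]⟩
        · exact ⟨_, ⟨h6, by rwa [(hHx m hm.1).2]⟩, by
            simp only [Rat.num_intCast, Int.natAbs_neg, Int.natAbs_natCast]⟩
      have h6 := (Set.ncard_le_ncard h5 (h3.image _)).trans (Set.ncard_image_le h3)
      have h7 : (({m : ℕ | m ∈ P ∧ (m : ℝ) ≤ X}.ncard : ℕ) : ℝ) ≤ κ * X ^ (κ / K) :=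
        le_trans (by exact_mod_cast h6) h4
      have h8 : X ^ (κ / K) ≤ X ^ (κ / K + ε) :=
        Real.rpow_le_rpow_of_exponent_le hX (by linarith)
      exact h7.trans (mul_le_mul_of_nonneg_left h8 hκ.le)) hv
  refine ⟨E, h1, fun α hα hαE => ?_⟩
  obtain ⟨n₀, hn⟩ := h2 α hα hαE
  refine ⟨n₀, fun n hn1 x hx hb => ?_⟩
  have hx0 : x ≠ 0 := by
    rintro rfl
    refine not_bad _ ?_ hb
    rw [Hx_int, Int.cast_zero, abs_zero, max_eq_right (by norm_num), Real.log_one]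
    exact hK.le
  apply hn n hn1 x.natAbs
  · rwa [Nat.cast_natAbs, Int.cast_abs]
  · rw [hP]
    refine ⟨Int.natAbs_pos.2 hx0, ?_⟩
    rcases Int.natAbs_eq x with h3 | h3
    · left; rwa [← h3]
    · right; rwa [← h3]

end Pool.Agent.H41H
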