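import Pool.Agent.H41H.Stm

set_option autoImplicit false

/-!
# Project HG, piece GCD
-/

namespace Pool.Agent.H41H

open Polynomial

namespace Gcd

/-- a multiple of all common prime divisors of the values of `f` and `f'` -/
lemma res (d : ℕ) : ∃ c : ℕ, ∀ (H : ℕ) (f : ℤ[X]), 1 ≤ H → f.natDegree ≤ d → (Q f).Separable →
    (∀ i, |f.coeff i| ≤ H) → ∃ R : ℤ, R ≠ 0 ∧ |R| ≤ (((c * H) ^ c : ℕ) : ℤ) ∧
      ∀ (x p : ℤ), p ∣ f.eval x → p ∣ f.derivative.eval x → p ∣ R := by
  refine ⟨(2 * d).factorial * d ^ (2 * d) + (2 * d + 1), ?_⟩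
  intro H f hH hd hsep hco
  have hinj : Function.Injective (Int.castRingHom ℚ) := RingHom.injective_int _
  have hf0 : f ≠ 0 := by
    rintro rfl
    exact hsep.ne_zero (by simp)
  have hHr : (1 : ℤ) ≤ H := by exact_mod_cast hH
  set c := (2 * d).factorial * d ^ (2 * d) + (2 * d + 1) with hc
  have hc1 : 1 ≤ c := by omega
  have hbig : ∀ k : ℕ, k ≤ 2 * d + 1 → ∀ A : ℕ, A ≤ c → A * H ^ k ≤ (c * H) ^ c := by
    intro k hk A hA
    rw [mul_pow]
    exact Nat.mul_le_mul (hA.trans (Nat.le_self_pow (by omega) _))
      (Nat.pow_le_pow_right hH (by omega))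
  by_cases hn : f.natDegree = 0
  · refine ⟨f.coeff 0, ?_, ?_, ?_⟩
    · intro h0
      apply hf0
      rw [eq_C_of_natDegree_eq_zero hn, h0, C_0]
    · refine (hco 0).trans ?_
      have := hbig 1 (by omega) 1 hc1
      rw [one_mul, pow_one] at this
      exact_mod_cast this
    · intro x p h1 _
      rw [eq_C_of_natDegree_eq_zero hn, eval_C] at h1
      exact h1
  · set f' := f.derivative with hf'
    refine ⟨f.resultant f', ?_, ?_, ?_⟩
    · have h1 : (Q f).resultant (Q f') ≠ 0 := by
        apply resultant_ne_zero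
        have : Q f' = (Q f).derivative := by rw [derivative_map]
        rw [this]
        exact hsep
      rw [natDegree_map_eq_of_injective hinj, natDegree_map_eq_of_injective hinj,
        resultant_map_map] at h1
      intro h0
      rw [h0] at h1
      simp at h1
    · have hdeg' : f'.natDegree ≤ f.natDegree - 1 := natDegree_derivative_le f
      have hd1 : 1 ≤ d := by omega
      have hentry : ∀ i j, AbsoluteValue.abs (sylvester f f' f.natDegree f'.natDegree i j) ≤
          ((d * H : ℕ) : ℤ) := by
        intro i j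
        have hb1 : ∀ k, |f.coeff k| ≤ ((d * H : ℕ) : ℤ) := by
          intro k
          refine (hco k).trans ?_
          exact_mod_cast Nat.le_mul_of_pos_left H hd1
        have hb2 : ∀ k, |f'.coeff k| ≤ ((d * H : ℕ) : ℤ) := by
          intro k
          rw [hf', coeff_derivative]
          by_cases hk : k + 1 ≤ f.natDegree
          · rw [abs_mul]
            have h1 : |((k : ℤ) + 1)| ≤ d := by
              rw [abs_of_nonneg (by positivity)]
              have : k + 1 ≤ d := by omega
              exact_mod_cast this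
            push_cast
            rw [mul_comm]
            exact mul_le_mul h1 (hco _) (abs_nonneg _) (by positivity)
          · rw [coeff_eq_zero_of_natDegree_lt (by omega)]
            simp only [zero_mul, abs_zero]
            positivity
        have h0 : (0 : ℤ) ≤ ((d * H : ℕ) : ℤ) := by positivity
        rw [AbsoluteValue.abs_apply]
        unfold sylvester
        rw [Matrix.of_apply]
        induction j using Fin.addCases with
        | left j =>
          rw [Fin.addCases_left]
          split_ifs
          · exact hb2 _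
          · simpa using h0
        | right j =>
          rw [Fin.addCases_right]
          split_ifs
          · exact hb1 _
          · simpa using h0
      have h1 := Matrix.det_le hentry
      rw [Fintype.card_fin, AbsoluteValue.abs_apply] at h1
      have h2 : (sylvester f f' f.natDegree f'.natDegree).det = f.resultant f' := rfl
      rw [h2] at h1
      refine h1.trans ?_
      rw [nsmul_eq_mul]
      have h3 : (f.natDegree + f'.natDegree).factorial * (d * H) ^ (f.natDegree + f'.natDegree) ≤
          (c * H) ^ c := by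
        have h4 : f.natDegree + f'.natDegree ≤ 2 * d := by omega
        calc (f.natDegree + f'.natDegree).factorial * (d * H) ^ (f.natDegree + f'.natDegree)
            ≤ (2 * d).factorial * (d * H) ^ (2 * d) :=
              Nat.mul_le_mul (Nat.factorial_le h4)
                (Nat.pow_le_pow_right (Nat.mul_pos hd1 hH) h4)
          _ = ((2 * d).factorial * d ^ (2 * d)) * H ^ (2 * d) := by rw [mul_pow]; ring
          _ ≤ (c * H) ^ c := hbig (2 * d) (by omega) _ (by omega)
      exact_mod_cast h3
    · intro x p h1 h2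
      obtain ⟨u, v, -, -, huv⟩ := exists_mul_add_mul_eq_C_resultant f f'
        (m := f.natDegree) (n := f'.natDegree) le_rfl le_rfl (Or.inl hn)
      have h3 := congrArg (eval x) huv
      rw [eval_add, eval_mul, eval_mul, eval_C] at h3
      rw [← h3]
      exact dvd_add (Dvd.dvd.mul_right h1 _) (Dvd.dvd.mul_right h2 _)

end Gcd

open Pool.Agent.H41H.Gcd in
theorem t_GCD : S_GCD := by
  intro d
  obtain ⟨c, hc⟩ := res d
  refine ⟨c, ?_⟩
  intro H f g h x y hH hd hsep hco hfgh hfx hy
  obtain ⟨R, hR0, hRb, hRp⟩ := hc H f hH hd hsep hco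
  have hprod : g.eval x * h.eval x = y ^ 2 := by rw [← hfx, hfgh, eval_mul]
  have hg0 : g.eval x ≠ 0 := by
    intro h0
    rw [h0, zero_mul] at hprod
    exact hy (pow_eq_zero_iff two_ne_zero |>.1 hprod.symm)
  have hh0 : h.eval x ≠ 0 := by
    intro h0
    rw [h0, mul_zero] at hprod
    exact hy (pow_eq_zero_iff two_ne_zero |>.1 hprod.symm)
  obtain ⟨a, b, hab, hsq⟩ := Nat.sq_mul_squarefree (g.eval x).natAbs
  have hN0 : (g.eval x).natAbs ≠ 0 := Int.natAbs_ne_zero.2 hg0
  have ha0 : a ≠ 0 := by
    rintro rfl
    exact hN0 (by rw [← hab]; simp)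
  have hb0 : b ≠ 0 := by
    rintro rfl
    exact hN0 (by rw [← hab]; simp)
  -- all primes dividing `a` divide `R`
  have hprime : ∀ p : ℕ, p.Prime → p ∣ a → p ∣ R.natAbs := by
    intro p hp hpa
    have hpg : (p : ℤ) ∣ g.eval x := by
      rw [Int.natCast_dvd, ← hab]
      exact Dvd.dvd.mul_left hpa _
    have hph : (p : ℤ) ∣ h.eval x := by
      rw [Int.natCast_dvd]
      by_contra hnd
      have hM0 : (h.eval x).natAbs ≠ 0 := Int.natAbs_ne_zero.2 hh0
      have h1 : b ^ 2 * a * (h.eval x).natAbs = y.natAbs ^ 2 := by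
        rw [hab, ← Int.natAbs_mul, hprod, Int.natAbs_pow]
      have h2 := congrArg (fun n : ℕ => n.factorization p) h1
      try simp only at h2
      rw [Nat.factorization_mul (mul_ne_zero (pow_ne_zero 2 hb0) ha0) hM0,
        Nat.factorization_mul (pow_ne_zero 2 hb0) ha0, Nat.factorization_pow,
        Nat.factorization_pow] at h2
      simp only [Finsupp.coe_add, Finsupp.coe_smul, Pi.add_apply, Pi.smul_apply, smul_eq_mul] at h2
      have h3 : a.factorization p = 1 := by
        have h4 := hsq.natFactorization_le_one p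
        have h5 := hp.factorization_pos_of_dvd ha0 hpa
        omega
      have h4 : (h.eval x).natAbs.factorization p = 0 := Nat.factorization_eq_zero_of_not_dvd hnd
      rw [h3, h4] at h2
      omega
    rw [← Int.natCast_dvd]
    refine hRp x p ?_ ?_
    · rw [hfgh, eval_mul]
      exact Dvd.dvd.mul_right hpg _
    · rw [hfgh, derivative_mul, eval_add, eval_mul, eval_mul]
      exact dvd_add (Dvd.dvd.mul_left hph _) (Dvd.dvd.mul_right hpg _)
  have hRn0 : R.natAbs ≠ 0 := Int.natAbs_ne_zero.2 hR0
  have hdvd : a ∣ R.natAbs := by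
    rw [← Nat.prod_primeFactors_of_squarefree hsq]
    refine dvd_trans (Finset.prod_dvd_prod_of_subset _ _ _ ?_) (Nat.prod_primeFactors_dvd R.natAbs)
    intro p hp
    rw [Nat.mem_primeFactors] at hp ⊢
    exact ⟨hp.1, hprime p hp.1 hp.2.1, hRn0⟩
  have hale : a ≤ R.natAbs := Nat.le_of_dvd (Nat.pos_of_ne_zero hRn0) hdvd
  refine ⟨(g.eval x).sign * a, (g.eval x).sign * a * b, ?_, ?_, ?_, ?_⟩
  · exact mul_ne_zero (by rwa [Ne, Int.sign_eq_zero_iff_zero]) (by exact_mod_cast ha0)
  · exact mul_ne_zero (mul_ne_zero (by rwa [Ne, Int.sign_eq_zero_iff_zero]) (by exact_mod_cast ha0))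
      (by exact_mod_cast hb0)
  · refine le_trans ?_ hRb
    rw [abs_mul, Int.abs_sign_of_ne_zero hg0, one_mul, Nat.abs_cast, ← Int.natCast_natAbs]
    exact_mod_cast hale
  · have h1 : g.eval x = (g.eval x).sign * ((b : ℤ) ^ 2 * a) := by
      have h2 : ((g.eval x).natAbs : ℤ) = (b : ℤ) ^ 2 * a := by rw [← hab]; push_cast; rfl
      rw [← h2]
      exact (Int.sign_mul_natAbs _).symm
    have h3 : (g.eval x).sign * (g.eval x).sign = 1 := by
      rcases lt_or_gt_of_ne hg0 with h4 | h4
      · rw [Int.sign_eq_neg_one_of_neg h4]; norm_num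
      · rw [Int.sign_eq_one_of_pos h4]; norm_num
    set σ := (g.eval x).sign with hσ
    rw [h1]
    ring

end Pool.Agent.H41H
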