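import Pool.Agent.H41H.Stm

/-!
# HG: the piece GLU (from the irreducible factors to all divisors)
-/

set_option autoImplicit false

namespace Pool.Agent.H41H

open Polynomial

/-- two coprime factors -/
lemma rep_mul {F G : ℚ[X]} {x : ℤ} {K : ℕ} (hFG : IsCoprime F G) (hF : Rep F x K) (hG : Rep G x K) :
    Rep (F * G) x K := by
  obtain ⟨u, v, huv⟩ := hFG
  obtain ⟨D₁, B₁, ⟨q₁, hq₁⟩, h₁⟩ := hF
  obtain ⟨D₂, B₂, ⟨q₂, hq₂⟩, h₂⟩ := hG
  have hv : v * G = 1 - u * F := by linear_combination huv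
  have hu : u * F = 1 - v * G := by linear_combination huv
  refine ⟨D₂ * (u * F) + D₁ * (v * G), B₂ * (u * F) + B₁ * (v * G), ?_, ?_⟩
  · apply IsCoprime.mul_dvd ⟨u, v, huv⟩
    · refine ⟨q₁ + (B₂ - B₁) * u * (2 * B₁ + (B₂ - B₁) * (u * F)) -
        (D₂ - D₁) * u * (C (x : ℚ) - X), ?_⟩
      rw [hv]
      linear_combination hq₁
    · refine ⟨q₂ + (B₁ - B₂) * v * (2 * B₂ + (B₁ - B₂) * (v * G)) -
        (D₁ - D₂) * v * (C (x : ℚ) - X), ?_⟩
      rw [hu]
      linear_combination hq₂
  · intro θ hθ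
    rw [map_mul] at hθ
    rcases mul_eq_zero.1 hθ with h0 | h0
    · have h3 : aeval θ (D₂ * (u * F) + D₁ * (v * G)) = aeval θ D₁ := by
        rw [hv]
        simp only [map_add, map_mul, map_sub, map_one, h0]
        ring
      rw [h3]
      exact h₁ θ h0
    · have h3 : aeval θ (D₂ * (u * F) + D₁ * (v * G)) = aeval θ D₂ := by
        rw [hu]
        simp only [map_add, map_mul, map_sub, map_one, h0]
        ring
      rw [h3]
      exact h₂ θ h0

/-- a unit factor -/
lemma rep_unit_mul {F G : ℚ[X]} {x : ℤ} {K : ℕ} (hF : IsUnit F) (hG : Rep G x K) :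
    Rep (F * G) x K := by
  obtain ⟨D, B, hB, h⟩ := hG
  refine ⟨D, B, (hF.mul_left_dvd).2 hB, fun θ hθ => h θ ?_⟩
  rw [map_mul] at hθ
  rcases mul_eq_zero.1 hθ with h0 | h0
  · exact absurd h0 (hF.map (aeval θ)).ne_zero
  · exact h0

lemma rep_unit {F : ℚ[X]} {x : ℤ} {K : ℕ} (hF : IsUnit F) : Rep F x K :=
  ⟨1, 0, hF.dvd, fun θ hθ => absurd hθ (hF.map (aeval θ)).ne_zero⟩

/-- GLU -/
theorem t_GLU : S_GLU := by
  intro f x K hf hrep
  have key : ∀ F : ℤ[X], F ∣ f → Rep (Q F) x K := by
    intro F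
    induction F using WfDvdMonoid.induction_on_irreducible with
    | zero =>
      intro h
      rw [zero_dvd_iff] at h
      rw [h, Q, Polynomial.map_zero] at hf
      exact absurd hf not_separable_zero
    | unit u hu =>
      intro _
      exact rep_unit (hu.map (mapRingHom (Int.castRingHom ℚ)))
    | mul a i ha hi ih =>
      intro h
      have hQ : Q (i * a) = Q i * Q a := Polynomial.map_mul _
      have h1 := ih ((Dvd.intro_left i rfl).trans h)
      rw [hQ]
      by_cases h0 : i.natDegree = 0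
      · refine rep_unit_mul ?_ h1
        obtain ⟨n, hn⟩ := natDegree_eq_zero.1 h0
        have hn0 : n ≠ 0 := by
          rintro rfl
          rw [map_zero] at hn
          exact hi.ne_zero hn.symm
        rw [← hn, Q, map_C, isUnit_C, isUnit_iff_ne_zero]
        simpa using hn0
      · have hp := hi.isPrimitive h0
        have h2 := hrep i ((Dvd.intro a rfl).trans h) (Nat.one_le_iff_ne_zero.2 h0) hp
          ((IsPrimitive.Int.irreducible_iff_irreducible_map_cast hp).1 hi)
        refine rep_mul ?_ h2 h1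
        apply Separable.isCoprime
        rw [← hQ]
        exact hf.of_dvd (Polynomial.map_dvd _ h)
  exact key f dvd_rfl

end Pool.Agent.H41H
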