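import Pool.Agent.H41H.Stm

set_option autoImplicit false

/-!
# Project HG, piece ONE
-/

namespace Pool.Agent.H41H

open Polynomial

namespace One

lemma aeval_Q (g : ℤ[X]) (θ : ℂ) : aeval θ (Q g) = aeval θ g := by
  have h : (algebraMap ℚ ℂ).comp (Int.castRingHom ℚ) = algebraMap ℤ ℂ := RingHom.ext_int _ _
  rw [aeval_def, aeval_def, eval₂_map, h]

lemma pigeon (e N : ℕ) (he : 1 ≤ e) (hN : 1 ≤ N) (x : ℤ) :
    ∃ (T : ℕ) (B : ℤ[X]), 1 ≤ T ∧ T ^ e ≤ N ∧ B ≠ 0 ∧ B.degree < e ∧ (∀ i, |B.coeff i| ≤ T) ∧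
      (N : ℤ) ∣ B.eval x := by
  have : NeZero N := ⟨by omega⟩
  set T := Nat.findGreatest (fun t => t ^ e ≤ N) N with hT
  have h1 : T ^ e ≤ N := Nat.findGreatest_spec (P := fun t => t ^ e ≤ N) hN (by simpa using hN)
  have h2 : 1 ≤ T := Nat.le_findGreatest hN (by simpa using hN)
  have h3 : N < (T + 1) ^ e := by
    by_contra hcon
    push Not at hcon
    have h4 : T + 1 ≤ N := le_trans (Nat.le_self_pow (by omega) _) hcon
    have h5 : T + 1 ≤ T := Nat.le_findGreatest h4 hcon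
    omega
  let φ : (Fin e → Fin (T + 1)) → ZMod N := fun b => ∑ i : Fin e, ((b i : ℕ) : ZMod N) * (x : ZMod N) ^ (i : ℕ)
  have hcard : Fintype.card (ZMod N) < Fintype.card (Fin e → Fin (T + 1)) := by
    rw [ZMod.card, Fintype.card_fun, Fintype.card_fin, Fintype.card_fin]
    exact h3
  obtain ⟨b, b', hbb, hφ⟩ := Fintype.exists_ne_map_eq_of_card_lt φ hcard
  let B : ℤ[X] := ∑ i : Fin e, C ((b i : ℕ) - (b' i : ℕ) : ℤ) * X ^ (i : ℕ)
  have hdeg : B.degree < e := degree_sum_fin_lt _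
  have hcoeff : ∀ i : Fin e, B.coeff i = ((b i : ℕ) : ℤ) - (b' i : ℕ) := by
    intro i
    change (∑ i : Fin e, C ((b i : ℕ) - (b' i : ℕ) : ℤ) * X ^ (i : ℕ)).coeff i = _
    rw [finsetSum_coeff, Finset.sum_eq_single i]
    · rw [coeff_C_mul, coeff_X_pow, if_pos rfl, mul_one]
    · intro j _ hj
      rw [coeff_C_mul, coeff_X_pow, if_neg, mul_zero]
      intro h
      exact hj (Fin.ext h.symm)
    · intro h
      exact absurd (Finset.mem_univ i) h
  refine ⟨T, B, h2, h1, ?_, hdeg, ?_, ?_⟩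
  · intro hB
    apply hbb
    funext i
    have h4 := hcoeff i
    rw [hB, coeff_zero] at h4
    apply Fin.ext
    omega
  · intro i
    by_cases hi : i < e
    · have h4 := hcoeff ⟨i, hi⟩
      simp only at h4
      rw [h4, abs_le]
      have h5 := (b ⟨i, hi⟩).2
      have h6 := (b' ⟨i, hi⟩).2
      constructor <;> omega
    · rw [coeff_eq_zero_of_degree_lt (lt_of_lt_of_le hdeg (by exact_mod_cast (not_lt.1 hi)))]
      simp
  · rw [← ZMod.intCast_zmod_eq_zero_iff_dvd]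
    have h4 : B.eval x = ∑ i : Fin e, (((b i : ℕ) : ℤ) - (b' i : ℕ)) * x ^ (i : ℕ) := by
      change (∑ i : Fin e, C ((b i : ℕ) - (b' i : ℕ) : ℤ) * X ^ (i : ℕ)).eval x = _
      rw [eval_finsetSum]
      refine Finset.sum_congr rfl fun i _ => ?_
      rw [eval_mul, eval_C, eval_pow, eval_X]
    rw [h4]
    push_cast
    simp only [sub_mul, Finset.sum_sub_distrib]
    rw [sub_eq_zero]
    exact hφ

lemma integral_of (a : ℤ) (θ : ℂ) (h : IsIntegral ℤ ((a : ℂ) * θ)) (n : ℕ) (P : ℤ[X])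
    (hP : P.natDegree ≤ n) : IsIntegral ℤ ((a : ℂ) ^ n * aeval θ P) := by
  rw [aeval_eq_sum_range' (Nat.lt_succ_of_le hP), Finset.mul_sum]
  refine IsIntegral.sum _ fun i hi => ?_
  have hi' : i ≤ n := by
    rw [Finset.mem_range] at hi; omega
  have h1 : (a : ℂ) ^ n * (P.coeff i • θ ^ i) =
      (algebraMap ℤ ℂ (P.coeff i * a ^ (n - i))) * ((a : ℂ) * θ) ^ i := by
    rw [zsmul_eq_mul]
    have h2 : (a : ℂ) ^ n = (a : ℂ) ^ (n - i) * (a : ℂ) ^ i := by
      rw [← pow_add]; congr 1; omega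
    rw [h2]
    simp only [algebraMap_int_eq, eq_intCast, Int.cast_mul, Int.cast_pow]
    ring
  rw [h1]
  exact isIntegral_algebraMap.mul (h.pow i)

lemma root_bound (G : ℕ) (hG : 1 ≤ G) (g : ℤ[X]) (hg : g ≠ 0) (hco : ∀ i, |g.coeff i| ≤ G)
    (θ : ℂ) (hθ : aeval θ g = 0) : ‖θ‖ ≤ 2 * G := by
  set p : ℂ[X] := g.map (Int.castRingHom ℂ) with hp
  have hinj : Function.Injective (Int.castRingHom ℂ) := RingHom.injective_int _
  have hp0 : p ≠ 0 := by
    rw [hp, Ne, Polynomial.map_eq_zero_iff hinj]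
    exact hg
  have hroot : p.IsRoot θ := by
    rw [IsRoot.def, hp, eval_map]
    rw [aeval_def] at hθ
    exact hθ
  have h1 := IsRoot.norm_lt_cauchyBound hp0 hroot
  have hcoeff : ∀ i, ‖p.coeff i‖₊ ≤ (G : NNReal) := by
    intro i
    rw [hp, coeff_map]
    have h2 : ‖((g.coeff i : ℤ) : ℂ)‖ ≤ (G : ℝ) := by
      rw [Complex.norm_intCast]
      exact_mod_cast hco i
    rw [← NNReal.coe_le_coe]
    exact h2
  have hlc : (1 : NNReal) ≤ ‖p.leadingCoeff‖₊ := by
    rw [hp, leadingCoeff_map_of_injective hinj]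
    have h2 : (1 : ℝ) ≤ ‖((g.leadingCoeff : ℤ) : ℂ)‖ := by
      rw [Complex.norm_intCast]
      have h3 : 1 ≤ |g.leadingCoeff| := Int.one_le_abs (leadingCoeff_ne_zero.2 hg)
      exact_mod_cast h3
    rw [← NNReal.coe_le_coe]
    exact h2
  have h2 : cauchyBound p ≤ (G : NNReal) + 1 := by
    unfold cauchyBound
    gcongr
    rw [div_le_iff₀ (lt_of_lt_of_le one_pos hlc)]
    refine (Finset.sup_le fun i _ => hcoeff i).trans ?_
    exact le_mul_of_one_le_right (by positivity) hlc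
  have h3 : ‖θ‖₊ ≤ (G : NNReal) + 1 := (h1.trans_le h2).le
  have h4 : ‖θ‖ ≤ (G : ℝ) + 1 := by exact_mod_cast h3
  have h5 : (1 : ℝ) ≤ G := by exact_mod_cast hG
  linarith

end One

open Pool.Agent.H41H.One in
theorem t_ONE : S_ONE := by
  intro d
  refine ⟨2 * d ^ 2 * (d + 1) * 4 ^ d + (4 * d + 1), ?_⟩
  intro G g x z hG he hd hirr hco hgx hz hx
  set e := g.natDegree with hedef
  obtain ⟨T, B, hT1, hTe, hB0, hBdeg, hBco, m, hm⟩ := pigeon e z.natAbs he (Int.natAbs_pos.2 hz) x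
  have hg0 : g ≠ 0 := by
    rintro rfl
    simp at hedef
    omega
  have hk : (B.eval x) ^ 2 = m ^ 2 * g.eval x := by
    rw [hm, hgx, mul_pow, Int.natCast_natAbs, sq_abs]
    ring
  have hroot : (B ^ 2 - C (m ^ 2) * g).IsRoot x := by
    rw [IsRoot.def, eval_sub, eval_pow, eval_mul, eval_C, hk, sub_self]
  obtain ⟨Q0, hQ0⟩ := dvd_iff_isRoot.2 hroot
  set a : ℤ := g.leadingCoeff with ha
  have ha0 : a ≠ 0 := leadingCoeff_ne_zero.2 hg0
  refine ⟨Q (-(C (a ^ (2 * e)) * Q0)), Q (C (a ^ e) * B), ?_, ?_⟩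
  · have h1 : (C (a ^ e) * B) ^ 2 - (-(C (a ^ (2 * e)) * Q0)) * (C x - X) =
        g * C (a ^ (2 * e) * m ^ 2) := by
      have h2 : (C (a ^ e) : ℤ[X]) ^ 2 = C (a ^ (2 * e)) := by
        rw [← C_pow, ← pow_mul, mul_comm e 2]
      rw [mul_pow, h2, C_mul]
      linear_combination (C (a ^ (2 * e))) * hQ0
    have h2 := congrArg Q h1
    simp only [Q, Polynomial.map_sub, Polynomial.map_mul, Polynomial.map_pow, Polynomial.map_neg,
      Polynomial.map_X, Polynomial.map_C] at h2 ⊢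
    rw [show (C (x : ℚ) : ℚ[X]) = C ((Int.castRingHom ℚ) x) by simp, h2]
    exact Dvd.intro _ rfl
  · intro θ hθ
    rw [aeval_Q] at hθ
    rw [aeval_Q]
    -- evaluation at θ
    have hev : (aeval θ B) ^ 2 = (θ - x) * aeval θ Q0 := by
      have h1 := congrArg (aeval θ) hQ0
      simp only [map_sub, map_mul, map_pow, aeval_X, hθ, mul_zero, sub_zero, aeval_C] at h1
      rw [h1]
      simp
    have hinj : Function.Injective (Int.castRingHom ℚ) := RingHom.injective_int _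
    have hBθ : aeval θ B ≠ 0 := by
      intro h0
      have hcop : IsCoprime (Q g) (Q B) := by
        rw [hirr.coprime_iff_not_dvd]
        refine not_dvd_of_degree_lt ?_ ?_
        · rw [Ne, Polynomial.map_eq_zero_iff hinj]; exact hB0
        · rw [degree_map_eq_of_injective hinj, degree_map_eq_of_injective hinj,
            degree_eq_natDegree hg0]
          exact hBdeg
      obtain ⟨u, v, huv⟩ := hcop
      have h1 := congrArg (aeval θ) huv
      rw [map_add, map_mul, map_mul, aeval_Q, aeval_Q, hθ, h0, mul_zero, mul_zero, map_one] at h1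
      simp at h1
    have hQθ : aeval θ Q0 ≠ 0 := by
      intro h0
      rw [h0, mul_zero] at hev
      exact hBθ (pow_eq_zero_iff (two_ne_zero) |>.1 hev)
    have haC : (a : ℂ) ≠ 0 := by exact_mod_cast ha0
    have hDθ : aeval θ (-(C (a ^ (2 * e)) * Q0)) = -((a : ℂ) ^ (2 * e) * aeval θ Q0) := by
      rw [map_neg, map_mul, aeval_C]
      simp
    rw [hDθ]
    -- degree of Q0
    have hQdeg : Q0.natDegree ≤ 2 * e := by
      by_cases hQ00 : Q0 = 0
      · rw [hQ00]; simp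
      have h1 : ((X - C x) * Q0).natDegree = 1 + Q0.natDegree := by
        rw [natDegree_mul (X_sub_C_ne_zero x) hQ00, natDegree_X_sub_C]
      have h2 : (B ^ 2 - C (m ^ 2) * g).natDegree ≤ 2 * e := by
        refine (natDegree_sub_le _ _).trans (max_le ?_ ?_)
        · refine natDegree_pow_le.trans ?_
          have : B.natDegree ≤ e := natDegree_le_of_degree_le hBdeg.le
          omega
        · refine (natDegree_C_mul_le _ _).trans ?_
          omega
      rw [hQ0, h1] at h2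
      omega
    have hint : IsIntegral ℤ ((a : ℂ) * θ) := by
      have h1 := isIntegral_leadingCoeff_smul g θ hθ
      rw [zsmul_eq_mul] at h1
      exact h1
    have hθb : ‖θ‖ ≤ 2 * G := root_bound G hG g hg0 hco θ hθ
    refine ⟨(integral_of a θ hint _ Q0 hQdeg).neg, neg_ne_zero.2 (mul_ne_zero (pow_ne_zero _ haC) hQθ), ?_⟩
    rw [norm_neg, norm_mul, norm_pow, Complex.norm_intCast]
    -- real estimates
    have hGr : (1 : ℝ) ≤ G := by exact_mod_cast hG
    have hTr : (1 : ℝ) ≤ T := by exact_mod_cast hT1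
    set Y : ℝ := |(x : ℝ)| with hY
    have hYG : 4 * (G : ℝ) ≤ Y := by
      rw [hY]; exact_mod_cast hx
    have hY1 : 1 ≤ Y := by linarith
    have haG : |(a : ℝ)| ≤ G := by
      have := hco g.natDegree
      rw [coeff_natDegree] at this
      exact_mod_cast this
    have hxθ : Y / 2 ≤ ‖θ - x‖ := by
      have h1 : ‖(x : ℂ)‖ = Y := Complex.norm_intCast x
      have h2 := norm_sub_norm_le (x : ℂ) θ
      rw [norm_sub_rev, h1] at h2
      linarith
    have hBn : ‖aeval θ B‖ ≤ e * T * (2 * G) ^ e := by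
      rw [aeval_eq_sum_range' (n := e) (by
        rw [natDegree_lt_iff_degree_lt hB0]; exact hBdeg)]
      refine (norm_sum_le _ _).trans ?_
      have h1 : ∀ i ∈ Finset.range e, ‖B.coeff i • θ ^ i‖ ≤ T * (2 * G) ^ e := by
        intro i hi
        rw [zsmul_eq_mul, norm_mul, norm_pow, Complex.norm_intCast]
        have h2 : |((B.coeff i : ℤ) : ℝ)| ≤ T := by exact_mod_cast hBco i
        have h3 : ‖θ‖ ^ i ≤ (2 * G) ^ e := by
          calc ‖θ‖ ^ i ≤ (2 * G) ^ i := by gcongr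
            _ ≤ (2 * G) ^ e := pow_le_pow_right₀ (by linarith) (Finset.mem_range.1 hi).le
        gcongr
      refine (Finset.sum_le_sum h1).trans ?_
      rw [Finset.sum_const, Finset.card_range, nsmul_eq_mul]
      linarith
    have hT2 : (T : ℝ) ^ 2 ≤ (e + 1) * G * Y := by
      have h1 : ((T : ℝ) ^ 2) ^ e ≤ ((e + 1) * G * Y) ^ e := by
        have h2 : ((T : ℝ) ^ e) ≤ |(z : ℝ)| := by
          have h3 : ((T ^ e : ℕ) : ℤ) ≤ |z| := by
            rw [← Int.natCast_natAbs]; exact_mod_cast hTe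
          exact_mod_cast h3
        have h3 : ((T : ℝ) ^ 2) ^ e ≤ (z : ℝ) ^ 2 := by
          rw [← pow_mul, mul_comm 2 e, pow_mul, ← sq_abs (z : ℝ)]
          gcongr
        have h4 : (z : ℝ) ^ 2 = ((g.eval x : ℤ) : ℝ) := by rw [hgx]; push_cast; rfl
        have h5 : ((g.eval x : ℤ) : ℝ) ≤ (e + 1) * G * Y ^ e := by
          rw [eval_eq_sum_range]
          push_cast
          have h6 : ∀ i ∈ Finset.range (e + 1), ((g.coeff i : ℤ) : ℝ) * (x : ℝ) ^ i ≤ G * Y ^ e := by
            intro i hi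
            refine (le_abs_self _).trans ?_
            rw [abs_mul, abs_pow]
            have h7 : |((g.coeff i : ℤ) : ℝ)| ≤ G := by exact_mod_cast hco i
            have h8 : |(x : ℝ)| ^ i ≤ Y ^ e :=
              pow_le_pow_right₀ hY1 (by rw [Finset.mem_range] at hi; omega)
            gcongr
          refine (Finset.sum_le_sum h6).trans ?_
          rw [Finset.sum_const, Finset.card_range, nsmul_eq_mul]
          push_cast
          linarith
        have h6 : (e + 1) * (G : ℝ) * Y ^ e ≤ ((e + 1) * G * Y) ^ e := by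
          rw [mul_pow]
          gcongr
          refine le_self_pow₀ ?_ (by omega)
          have : (0 : ℝ) ≤ e := Nat.cast_nonneg e
          nlinarith
        linarith
      exact le_of_pow_le_pow_left₀ (by omega) (by positivity) h1
    have hQn : ‖aeval θ Q0‖ ≤ 2 * e ^ 2 * (e + 1) * G * (2 * G) ^ (2 * e) := by
      have h1 : ‖aeval θ B‖ ^ 2 = ‖θ - x‖ * ‖aeval θ Q0‖ := by
        rw [← norm_pow, hev, norm_mul]
      have h2 : ‖aeval θ B‖ ^ 2 ≤ (e * T * (2 * G) ^ e) ^ 2 := by gcongr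
      have h3 : (e * (T : ℝ) * (2 * G) ^ e) ^ 2 ≤ e ^ 2 * ((e + 1) * G * Y) * (2 * G) ^ (2 * e) := by
        rw [mul_pow, mul_pow, ← pow_mul, mul_comm e 2]
        gcongr
      have h4 : Y / 2 * ‖aeval θ Q0‖ ≤ ‖θ - x‖ * ‖aeval θ Q0‖ := by gcongr
      have h5 : Y / 2 * ‖aeval θ Q0‖ ≤ Y / 2 * (2 * e ^ 2 * (e + 1) * G * (2 * G) ^ (2 * e)) := by
        have h6 : Y / 2 * (2 * (e : ℝ) ^ 2 * (e + 1) * G * (2 * G) ^ (2 * e)) =
          e ^ 2 * ((e + 1) * G * Y) * (2 * G) ^ (2 * e) := by ring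
        rw [h6]
        linarith
      exact le_of_mul_le_mul_left h5 (by linarith)
    have hed : (e : ℝ) ≤ d := by exact_mod_cast hd
    have hfin : |(a : ℝ)| ^ (2 * e) * ‖aeval θ Q0‖ ≤
        2 * d ^ 2 * (d + 1) * 4 ^ d * (G : ℝ) ^ (4 * d + 1) := by
      calc |(a : ℝ)| ^ (2 * e) * ‖aeval θ Q0‖
          ≤ (G : ℝ) ^ (2 * e) * (2 * e ^ 2 * (e + 1) * G * (2 * G) ^ (2 * e)) := by gcongr
        _ = 2 * e ^ 2 * (e + 1) * 4 ^ e * (G : ℝ) ^ (4 * e + 1) := by
            rw [mul_pow, pow_mul 2 2 e, show (2 : ℝ) ^ 2 = 4 by norm_num,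
              show 4 * e + 1 = 2 * e + 2 * e + 1 by ring, pow_succ, pow_add]
            ring
        _ ≤ 2 * d ^ 2 * (d + 1) * 4 ^ d * (G : ℝ) ^ (4 * d + 1) := by
            gcongr
            · norm_num
    refine hfin.trans ?_
    push_cast
    set A : ℝ := 2 * d ^ 2 * (d + 1) * 4 ^ d with hA
    have hA0 : 0 ≤ A := by positivity
    have hc1 : (1 : ℝ) ≤ A + (4 * d + 1) := by
      have : (0 : ℝ) ≤ d := Nat.cast_nonneg d
      linarith
    rw [mul_pow]
    have h1 : A ≤ (A + (4 * d + 1)) ^ (2 * d ^ 2 * (d + 1) * 4 ^ d + (4 * d + 1)) := by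
      have h2 : A ≤ A + (4 * d + 1) := by
        have : (0 : ℝ) ≤ d := Nat.cast_nonneg d
        linarith
      exact h2.trans (le_self_pow₀ hc1 (by omega))
    have h2 : (G : ℝ) ^ (4 * d + 1) ≤ (G : ℝ) ^ (2 * d ^ 2 * (d + 1) * 4 ^ d + (4 * d + 1)) :=
      pow_le_pow_right₀ hGr (by omega)
    gcongr

end Pool.Agent.H41H
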