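import Pool.Agent.H41H.Stm
import Pool.Agent.Y910.F.F6

/-!
# Project HG: the piece REP (helper41), small representatives of the classes of the 2-descent
-/

set_option autoImplicit false

namespace Pool.Agent.H41H

open Polynomial

lemma Rep.mono {F : ℚ[X]} {x : ℤ} {K K' : ℕ} (h : Rep F x K) (hK : K ≤ K') : Rep F x K' := by
  obtain ⟨D, B, h1, h2⟩ := h
  refine ⟨D, B, h1, fun θ hθ => ?_⟩
  obtain ⟨h3, h4, h5⟩ := h2 θ hθ
  exact ⟨h3, h4, h5.trans (by exact_mod_cast hK)⟩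

lemma Rep.of_dvd {F G : ℚ[X]} {x : ℤ} {K : ℕ} (h : Rep F x K) (hG : G ∣ F) : Rep G x K := by
  obtain ⟨D, B, h1, h2⟩ := h
  refine ⟨D, B, hG.trans h1, fun θ hθ => h2 θ ?_⟩
  obtain ⟨Z, rfl⟩ := hG
  rw [map_mul, hθ, zero_mul]

lemma pow_bound {B H e c : ℕ} (hH : 1 ≤ H) (hc : 1 ≤ c) (hBc : B ≤ c) (he : e ≤ c) :
    (B * H) ^ e ≤ (c * H) ^ c :=
  (Nat.pow_le_pow_left (Nat.mul_le_mul_right _ hBc) e).trans
    (Nat.pow_le_pow_right (Nat.mul_pos hc hH) he)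

lemma Q_ne_zero {f : ℤ[X]} (hf : (Q f).Separable) : f ≠ 0 := by
  rintro rfl
  rw [Q, Polynomial.map_zero] at hf
  exact not_separable_zero hf

theorem t_REP (h1 : S_ONE) (h2 : S_GCD) (h3 : S_GLU) : S_REP := by
  intro d
  obtain ⟨c1, hc1⟩ := h1 d
  obtain ⟨c2, hc2⟩ := h2 d
  obtain ⟨A, hA⟩ : ∃ A : ℕ, A = 2 ^ d * (d + 1) := ⟨_, rfl⟩
  have hA1 : 1 ≤ A := by rw [hA]; exact Nat.mul_pos (pow_pos two_pos _) (Nat.succ_pos _)
  obtain ⟨B, hB⟩ : ∃ B : ℕ, B = 4 * (c1 + 1) * (c2 ^ c2 * A + A) := ⟨_, rfl⟩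
  obtain ⟨c, hc⟩ : ∃ c : ℕ, c = B + (c2 + 1) * (c1 + 1) := ⟨_, rfl⟩
  have hcB : B ≤ c := by rw [hc]; exact Nat.le_add_right _ _
  have hc_1 : 1 ≤ c := by
    rw [hc]
    have : 1 ≤ (c2 + 1) * (c1 + 1) := Nat.mul_pos (Nat.succ_pos _) (Nat.succ_pos _)
    omega
  have hce1 : c2 + 1 ≤ c := by
    rw [hc]
    have : (c2 + 1) * 1 ≤ (c2 + 1) * (c1 + 1) := Nat.mul_le_mul_left _ (by omega)
    omega
  have hce2 : (c2 + 1) * c1 ≤ c := by
    rw [hc]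
    have : (c2 + 1) * c1 ≤ (c2 + 1) * (c1 + 1) := Nat.mul_le_mul_left _ (by omega)
    omega
  refine ⟨c, fun H f x y hH hd hsep hco hev hx => ?_⟩
  have hf0 := Q_ne_zero hsep
  -- the size of the factors
  have hfac : ∀ g : ℤ[X], g ∣ f → ∀ i, |g.coeff i| ≤ ((A * H : ℕ) : ℤ) := by
    intro g hg i
    refine (Pool.Agent.Y910.F.factor_bound f.natDegree H f g rfl hf0 hco hg i).trans ?_
    have h4 : 2 ^ f.natDegree * ((f.natDegree + 1) * H) ≤ A * H := by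
      rw [hA, ← mul_assoc]
      exact Nat.mul_le_mul_right _ (Nat.mul_le_mul (Nat.pow_le_pow_right (by norm_num) hd)
        (by omega))
    exact_mod_cast h4
  have hAB : A ≤ B := by
    rw [hB]
    have h5 : 1 ≤ 4 * (c1 + 1) := by omega
    calc A ≤ c2 ^ c2 * A + A := Nat.le_add_left _ _
      _ = 1 * (c2 ^ c2 * A + A) := (one_mul _).symm
      _ ≤ _ := Nat.mul_le_mul_right _ h5
  have hy : y ≠ 0 := by
    rintro rfl
    have h4 : (X - C x) ∣ f := by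
      rw [dvd_iff_isRoot, IsRoot.def, hev]
      norm_num
    have h5 := hfac _ h4 0
    have h6 : (X - C x).coeff 0 = -x := by simp
    rw [h6, abs_neg] at h5
    have h7 : A * H ≤ (c * H) ^ c := by
      have := pow_bound (B := A) (e := 1) hH hc_1 (hAB.trans hcB) hc_1
      rwa [pow_one] at this
    have h8 : ((A * H : ℕ) : ℤ) ≤ (((c * H) ^ c : ℕ) : ℤ) := by exact_mod_cast h7
    omega
  apply h3 f x _ hsep
  intro g hgf hg1 _ hgi
  obtain ⟨h, hgh⟩ := hgf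
  obtain ⟨δ, w, hδ0, hw0, hδ, hδw⟩ := hc2 H f g h x y hH hd hsep hco hgh hev hy
  obtain ⟨G, hG⟩ : ∃ G : ℕ, G = (c2 * H) ^ c2 * (A * H) := ⟨_, rfl⟩
  have hGB : ∀ m : ℕ, m ≤ 4 * (c1 + 1) → m * G ≤ (B * H) ^ (c2 + 1) := by
    intro m hm
    have e1 : m * G = m * (c2 ^ c2 * A) * H ^ (c2 + 1) := by
      rw [hG, mul_pow, pow_succ]
      ring
    have hB1 : 1 ≤ B := hA1.trans hAB
    calc m * G = m * (c2 ^ c2 * A) * H ^ (c2 + 1) := e1
      _ ≤ (4 * (c1 + 1)) * (c2 ^ c2 * A + A) * H ^ (c2 + 1) :=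
        Nat.mul_le_mul_right _ (Nat.mul_le_mul hm (Nat.le_add_right _ _))
      _ = B * H ^ (c2 + 1) := by rw [← hB]
      _ ≤ B ^ (c2 + 1) * H ^ (c2 + 1) :=
        Nat.mul_le_mul_right _ (Nat.le_self_pow (by omega) _)
      _ = (B * H) ^ (c2 + 1) := (mul_pow _ _ _).symm
  have hδ1 : 1 ≤ |δ| := Int.one_le_abs hδ0
  have hG1 : 1 ≤ G := by
    have h4 : 1 ≤ (c2 * H) ^ c2 := by exact_mod_cast hδ1.trans hδ
    rw [hG]
    exact Nat.mul_pos h4 (Nat.mul_pos hA1 hH)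
  have hQ : Q (C δ * g) = C (δ : ℚ) * Q g := by
    rw [Q, Q, Polynomial.map_mul, map_C]
    rfl
  have hunit : IsUnit (C (δ : ℚ)) := by
    rw [isUnit_C, isUnit_iff_ne_zero]
    exact_mod_cast hδ0
  have h5 := hc1 G (C δ * g) x w hG1 (by rwa [natDegree_C_mul hδ0])
    (by
      rw [natDegree_C_mul hδ0]
      exact (natDegree_le_of_dvd ⟨h, hgh⟩ hf0).trans hd)
    (by rw [hQ]; exact (irreducible_isUnit_mul hunit).2 hgi)
    (fun i => by
      rw [coeff_C_mul, abs_mul, hG]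
      push_cast
      have := hfac g ⟨h, hgh⟩ i
      push_cast at this hδ
      exact mul_le_mul hδ this (abs_nonneg _) (by positivity))
    (by rw [eval_mul, eval_C, hδw]) hw0
    (by
      have h6 := (hGB 4 (by omega)).trans (pow_bound (B := B) hH hc_1 hcB hce1)
      have h7 : ((4 * G : ℕ) : ℤ) ≤ (((c * H) ^ c : ℕ) : ℤ) := by exact_mod_cast h6
      push_cast at h7 hx
      linarith)
  refine (h5.of_dvd (by rw [hQ]; exact Dvd.intro_left _ rfl)).mono ?_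
  calc (c1 * G) ^ c1 ≤ ((B * H) ^ (c2 + 1)) ^ c1 := Nat.pow_le_pow_left (hGB c1 (by omega)) _
    _ = (B * H) ^ ((c2 + 1) * c1) := (pow_mul _ _ _).symm
    _ ≤ (c * H) ^ c := pow_bound hH hc_1 hcB hce2

end Pool.Agent.H41H
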