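import Mathlib

/-!
# Project HG (helper41, MP_d88658_nt): few exceptions to the Hall-Lang-Vojta bound, points of all heights

Goal. For every `d` there is `c` such that for every `H ≥ 1` at most `(c H) ^ c` integers `x` with `|x| > (c H) ^ c` (of any
height) lie under an integral point of some curve `y² = f(x)`, `f ∈ ℤ[X]` of degree `3, …, d` without multiple roots and with
coefficients bounded by `H`. Consequences: Q1 holds with one constant for ALL curves at all integral points for which `x`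
is near a generic number (real, `p`-adic, in any metric space; near the powers of a generic real number).

Proof. An integral point `(x, y)` gives a class of the 2-descent: `B² = D (x - X)` modulo
`f`, where by the pigeonhole principle (a lattice of index `y` in `ℤ^n`) `D` can be chosen small (`REP`). There are few such `D`
modulo `f` (`CLS`), and few large points `x` for each of them (library: `Pool.Agent.Y910.F.frame`).

Each `S_…` is one independent piece, to be proved in `Pool/Agent/H41H/<Name>.lean` as `theorem t_… : S_…`, namespace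
`Pool.Agent.H41H`. Only Mathlib is needed in ONE, GCD, GLU, CLS. All polynomials over `ℤ` are mapped to `ℚ` by
`Polynomial.map (Int.castRingHom ℚ)`.
-/

set_option autoImplicit false

namespace Pool.Agent.H41H

open Polynomial

/-- `f` over the rational numbers -/
noncomputable abbrev Q (f : ℤ[X]) : ℚ[X] := f.map (Int.castRingHom ℚ)

/-- the class of `x - X` modulo `F` has a representative `D` of size at most `K` -/
def Rep (F : ℚ[X]) (x : ℤ) (K : ℕ) : Prop :=
  ∃ D B : ℚ[X], F ∣ B ^ 2 - D * (C (x : ℚ) - X) ∧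
    ∀ θ : ℂ, aeval θ F = 0 → IsIntegral ℤ (aeval θ D) ∧ aeval θ D ≠ 0 ∧ ‖aeval θ D‖ ≤ K

/-- **Piece ONE** (file `One.lean`, 100 lines). Irreducible polynomials.

Proof. `e = deg g`, `T` the largest integer with `T ^ e ≤ |z|`, so `(T + 1) ^ e > |z|`. There are more than `|z|` vectors
`(b_0, …, b_(e-1))` with `0 ≤ b_i ≤ T`; two of them have the same value `∑ b_i x ^ i` modulo `z` (pigeonhole,
`Finset.exists_ne_map_eq_of_card_lt_of_maps_to`), their difference is a nonzero `B ∈ ℤ[X]` of degree `< e`, coefficients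
bounded by `T`, with `z ∣ B(x)`. So `B(x)² = k z² = k g(x)` with `k ∈ ℤ`; `B² - k g` vanishes at `x`, so
`B² - k g = (X - x) Q`, `Q ∈ ℤ[X]`, and `B² = k g + (x - X) (-Q)`; put `D = -Q`, of degree at most `2 e`. For a root `θ` of
`g`: `B(θ) ≠ 0` (`g` irreducible over `ℚ`, `B ≠ 0` of smaller degree), so `D(θ) ≠ 0`; `|θ| ≤ 2 G` (`|lc| ≥ 1`; or
`Polynomial.IsRoot.norm_lt_cauchyBound`); `|x - θ| ≥ |x| / 2`; `T ^ (2 e) ≤ z² = |g(x)| ≤ (e + 1) G |x| ^ e`, hence `T² ≤ (e + 1) G |x|`; so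
`|D(θ)| = |B(θ)|² / |x - θ| ≤ (e T (2 G) ^ e)² / (|x| / 2) ≤ 2 e² (e + 1) G (2 G) ^ (2 e)`. `lc(g) θ` is integral, so
`lc(g) ^ (2 e) D(θ)` is integral; replace `D`, `B` by `lc(g) ^ (2 e) D`, `lc(g) ^ e B`. -/
def S_ONE : Prop :=
  ∀ d : ℕ, ∃ c : ℕ, ∀ (G : ℕ) (g : ℤ[X]) (x z : ℤ), 1 ≤ G → 1 ≤ g.natDegree → g.natDegree ≤ d →
    Irreducible (Q g) → (∀ i, |g.coeff i| ≤ G) → g.eval x = z ^ 2 → z ≠ 0 → 4 * (G : ℤ) ≤ |x| →
    Rep (Q g) x ((c * G) ^ c)

/-- **Piece GCD** (file `Gcd.lean`, 100 lines). The squarefree part of a factor is small.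

Proof. Write `g(x) = δ v²` with `δ` squarefree (`Nat.sq_mul_squarefree` for `|g(x)| ≠ 0`, put the sign into `δ`) and `w = δ v`. Let
`p` be a prime divisor of `δ`. The exponent of `p` in `g(x)` is odd and `g(x) h(x) = y²`, so `p ∣ h(x)` as well, and `p` divides
`f(x)` and `f'(x) = g'(x) h(x) + g(x) h'(x)`. There are `U, V ∈ ℤ[X]` with `U f + V f' = R`, `R ≠ 0` an integer with `|R| ≤ (c H) ^ c`
(resultant of `f` and `f'`: `Polynomial.exists_mul_add_mul_eq_C_resultant` and `Polynomial.resultant_ne_zero` or the like in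
`Mathlib/RingTheory/Polynomial/Resultant/Basic.lean`, the determinant of the Sylvester matrix is bounded by `Matrix.det_le`; if
`f` is constant there is nothing to do, `R` = the constant). So all primes `p ∣ δ` divide `R`, and `|δ| ≤ |R|` as `δ` is squarefree. -/
def S_GCD : Prop :=
  ∀ d : ℕ, ∃ c : ℕ, ∀ (H : ℕ) (f g h : ℤ[X]) (x y : ℤ), 1 ≤ H → f.natDegree ≤ d → (Q f).Separable →
    (∀ i, |f.coeff i| ≤ H) → f = g * h → f.eval x = y ^ 2 → y ≠ 0 →
    ∃ δ w : ℤ, δ ≠ 0 ∧ w ≠ 0 ∧ |δ| ≤ (((c * H) ^ c : ℕ) : ℤ) ∧ δ * g.eval x = w ^ 2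

/-- **Piece GLU** (file `Glu.lean`, 80 lines). From the irreducible factors to all divisors.

Proof. Induction over the divisors `F ∣ f` in `ℤ[X]` (`WfDvdMonoid.induction_on_irreducible`, the statement being
`F ∣ f → Rep (Q F) x K`). Units: `D = 1`, `B = 0`; no roots. `F = i a` with `i` irreducible in `ℤ[X]`: if `i` is constant then
`Q F` is a nonzero rational times `Q a`. Otherwise `i` is primitive and `Q i` irreducible (`Polynomial.IsPrimitive.Int.irreducible_iff_irreducible_map_cast`,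
`Irreducible.isPrimitive`), so `Rep (Q i) x K` by hypothesis. `Q i` and `Q a` are coprime (`Q f` is separable:
`Polynomial.Separable.of_dvd`, `Polynomial.Separable.isCoprime`), `u Q i + v Q a = 1`; with the data `(D₁, B₁)` of `i` and `(D₂, B₂)` of `a` put
`D = D₂ u (Q i) + D₁ v (Q a)`, `B = B₂ u (Q i) + B₁ v (Q a)`; these are congruent to `D₁, B₁` modulo `Q i` and to `D₂, B₂` modulo `Q a`. -/
def S_GLU : Prop :=
  ∀ (f : ℤ[X]) (x : ℤ) (K : ℕ), (Q f).Separable →
    (∀ g : ℤ[X], g ∣ f → 1 ≤ g.natDegree → g.IsPrimitive → Irreducible (Q g) → Rep (Q g) x K) →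
    Rep (Q f) x K

/-- **Piece CLS** (file `Cls.lean`, 100 lines). There are few small classes.

Proof. Let `n = deg f` and `θ_1, …, θ_n ∈ ℂ` the roots of `f` (distinct), `a = lc(f)`. For `k < n` the number
`t_k(D) = ∑ i, (a θ_i) ^ k D(θ_i)` is an algebraic integer, and it is rational (a symmetric function of the roots; see the proof of
`int_point` in `Pool/Agent/Y910/F/F4.lean`, or: the trace of `(a X) ^ k D` in `ℚ[X] / (f)`; or: it is fixed by all automorphisms of the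
splitting field of `f` in `ℂ`), so it is an integer; `|a θ_i| ≤ 2 H²`, so `|t_k(D)| ≤ n (2 H²) ^ n K`. If
`t_k(D) = t_k(D')` for all `k < n` then `D(θ_i) = D'(θ_i)` for all `i` (Vandermonde, `a θ_i` distinct) and `f ∣ D - D'` (`f` separable).
So `s.card ≤ (2 n (2 H²) ^ n K + 1) ^ n`. -/
def S_CLS : Prop :=
  ∀ d : ℕ, ∃ c : ℕ, ∀ (H K : ℕ) (f : ℤ[X]) (s : Finset ℤ) (D : ℤ → ℚ[X]), 1 ≤ H → 1 ≤ K →
    f.natDegree ≤ d → (Q f).Separable → (∀ i, |f.coeff i| ≤ H) →
    (∀ x ∈ s, ∀ θ : ℂ, aeval θ (Q f) = 0 → IsIntegral ℤ (aeval θ (D x)) ∧ ‖aeval θ (D x)‖ ≤ K) →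
    (∀ x ∈ s, ∀ x' ∈ s, Q f ∣ D x - D x' → x = x') → s.card ≤ (c * H * K) ^ c

/-- **REP** (helper41; from ONE, GCD, GLU). -/
def S_REP : Prop :=
  ∀ d : ℕ, ∃ c : ℕ, ∀ (H : ℕ) (f : ℤ[X]) (x y : ℤ), 1 ≤ H → f.natDegree ≤ d → (Q f).Separable →
    (∀ i, |f.coeff i| ≤ H) → f.eval x = y ^ 2 → (((c * H) ^ c : ℕ) : ℤ) < |x| →
    Rep (Q f) x ((c * H) ^ c)

/-- **ALL** (helper41; from REP, CLS and `frame`). -/
def S_ALL : Prop :=
  ∀ d : ℕ, ∃ c : ℕ, ∀ (H : ℕ) (s : Finset ℤ), 1 ≤ H → (∀ x ∈ s, (((c * H) ^ c : ℕ) : ℤ) < |x| ∧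
    ∃ f : ℤ[X], 3 ≤ f.natDegree ∧ f.natDegree ≤ d ∧ (Q f).Separable ∧ (∀ i, |f.coeff i| ≤ H) ∧
      ∃ y : ℤ, f.eval x = y ^ 2) → s.card ≤ (c * H) ^ c

end Pool.Agent.H41H
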